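import Pool.Agent.K4H5.US.Span

/-!
A reducible matrix of polynomials of small degree is block triangular in a constant basis.
-/

set_option autoImplicit false
set_option linter.unusedSectionVars false

open Polynomial Module

namespace Pool.Agent.K4H5.US

open Pool.Agent.Y709 Pool.Agent.Y515.CntG Pool.Agent.Y709.Irr Pool.Agent.Y709.IrrS

section adapted

variable {k : Type} [Field k] {r : ℕ}

/-- a basis adapted to a subspace, with its dual basis -/
theorem exists_adapted (U : Submodule k (Fin r → k)) :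
    ∃ (r₁ r₂ : ℕ) (G : Matrix (Fin r) (Fin r₁ ⊕ Fin r₂) k)
      (H : Matrix (Fin r₁ ⊕ Fin r₂) (Fin r) k), r₁ = finrank k U ∧ r₁ + r₂ = r ∧ G * H = 1 ∧
      H * G = 1 ∧ (∀ l : Fin r₁, (fun c => G c (Sum.inl l)) ∈ U) ∧
      ∀ i : Fin r₂, ∀ u ∈ U, ∑ c, H (Sum.inr i) c * u c = 0 := by
  classical
  obtain ⟨W, hW⟩ := U.exists_isCompl
  let bas := ((finBasis k U).prod (finBasis k W)).map (Submodule.prodEquivOfIsCompl U W hW)
  have hsum : ∀ (v : Fin r → k), v = ∑ c, v c • (Pi.single c 1 : Fin r → k) := by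
    intro v
    funext c
    rw [Finset.sum_apply]
    simp [Pi.single_apply]
  refine ⟨finrank k U, finrank k W, Matrix.of fun c l => bas l c,
    Matrix.of fun l c => bas.repr (Pi.single c 1) l, rfl, ?_, ?_, ?_, ?_, ?_⟩
  · have h1 := Submodule.finrank_add_eq_of_isCompl hW
    rw [h1, finrank_fin_fun]
  · refine Matrix.ext fun c c' => ?_
    rw [Matrix.mul_apply]
    have h1 := congrFun (bas.sum_repr (Pi.single c' (1 : k))) c
    rw [Finset.sum_apply] at h1
    rw [Matrix.one_apply]
    refine Eq.trans (Finset.sum_congr rfl fun l _ => ?_) (h1.trans ?_)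
    · rw [Matrix.of_apply, Matrix.of_apply, Pi.smul_apply, smul_eq_mul, mul_comm]
    · rw [Pi.single_apply]
  · refine Matrix.ext fun l l' => ?_
    rw [Matrix.mul_apply]
    have h1 : bas.repr (bas l') l = bas.repr (∑ c, (bas l') c • (Pi.single c 1 : Fin r → k)) l := by
      rw [← hsum (bas l')]
    rw [map_sum, Basis.repr_self, Finsupp.finsetSum_apply] at h1
    rw [Matrix.one_apply]
    refine Eq.trans (Finset.sum_congr rfl fun c _ => ?_) (h1.symm.trans ?_)
    · rw [Matrix.of_apply, Matrix.of_apply, map_smul, Finsupp.smul_apply, smul_eq_mul, mul_comm]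
    · rw [Finsupp.single_apply]
      by_cases h : l = l'
      · rw [if_pos h.symm, if_pos h]
      · rw [if_neg (Ne.symm h), if_neg h]
  · intro l
    have h1 : (fun c => (Matrix.of fun c l => bas l c) c (Sum.inl l)) = bas (Sum.inl l) := rfl
    rw [h1]
    have h2 : bas (Sum.inl l) = ((finBasis k U l : U) : Fin r → k) := by
      show (Submodule.prodEquivOfIsCompl U W hW) (((finBasis k U).prod (finBasis k W)) (Sum.inl l)) = _
      rw [Submodule.coe_prodEquivOfIsCompl']
      rw [Basis.prod_apply_inl_fst, Basis.prod_apply_inl_snd]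
      simp
    rw [h2]
    exact (finBasis k U l).2
  · intro i u hu
    have h1 : bas.repr u (Sum.inr i) =
        bas.repr (∑ c, u c • (Pi.single c 1 : Fin r → k)) (Sum.inr i) := by
      rw [← hsum u]
    rw [map_sum, Finsupp.finsetSum_apply] at h1
    refine Eq.trans (Finset.sum_congr rfl fun c _ => ?_) (h1.symm.trans ?_)
    · rw [Matrix.of_apply, map_smul, Finsupp.smul_apply, smul_eq_mul, mul_comm]
    · show (((finBasis k U).prod (finBasis k W)).repr
        ((Submodule.prodEquivOfIsCompl U W hW).symm u)) (Sum.inr i) = 0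
      have h3 := Submodule.prodEquivOfIsCompl_symm_apply_left U W hW ⟨u, hu⟩
      dsimp only at h3
      rw [h3, Basis.prod_repr_inr, map_zero, Finsupp.zero_apply]

end adapted

section block

variable {k : Type} [Field k] [Fintype k] {q r p a : ℕ} [hp : Fact p.Prime] [CharP k p]
variable {σ τ : k →+* k}

/-- the constants among the common zeros -/
def U0 {k : Type} [Field k] {r : ℕ} (S : Set (Fin r → k[X])) : Submodule k (Fin r → k) where
  carrier := {u | (fun b => C (u b)) ∈ UU S}
  add_mem' := by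
    intro u v hu hv L hL
    have h1 := hu L hL
    have h2 := hv L hL
    have h3 : ∀ b, L b * C ((u + v) b) = L b * C (u b) + L b * C (v b) := by
      intro b
      rw [Pi.add_apply, C_add, mul_add]
    show ∑ b, L b * C ((u + v) b) = 0
    rw [Finset.sum_congr rfl fun b _ => h3 b, Finset.sum_add_distrib]
    exact (congrArg₂ (· + ·) h1 h2).trans (add_zero 0)
  zero_mem' := by
    intro L _
    show ∑ b, L b * C ((0 : Fin r → k) b) = 0
    refine Finset.sum_eq_zero fun b _ => ?_
    rw [Pi.zero_apply, C_0, mul_zero]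
  smul_mem' := by
    intro c u hu L hL
    have h1 := hu L hL
    show ∑ b, L b * C ((c • u) b) = 0
    have h3 : ∀ b, L b * C ((c • u) b) = C c * (L b * C (u b)) := by
      intro b
      rw [Pi.smul_apply, smul_eq_mul, C_mul]
      ring
    rw [Finset.sum_congr rfl fun b _ => h3 b, ← Finset.mul_sum]
    exact (congrArg (fun x => C c * x) h1).trans (mul_zero _)

theorem mem_U0 {S : Set (Fin r → k[X])} {u : Fin r → k} :
    u ∈ U0 S ↔ (fun b => C (u b)) ∈ UU S := Iff.rfl

/-- the forms that vanish on the constants vanish on the images -/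
theorem kill (hστ : ∀ x, σ (τ x) = x) (hτσ : ∀ x, τ (σ x) = x) (hσ : ∀ x, σ x = x ^ q)
    (hexp : ∀ g : k[X], expand k q (g.map σ) = g ^ q) {Φ : Matrix (Fin r) (Fin r) k[X]}
    {S : Set (Fin r → k[X])} (hS : Stab q σ Φ S) {f : ℕ}
    (hf : ∀ i j, (Φ i j).natDegree ≤ f) (hfq : f + 2 ≤ q) {h : Fin r → k}
    (hh : ∀ u ∈ U0 S, ∑ b, h b * u b = 0) {u : Fin r → k} (hu : u ∈ U0 S) :
    ∑ b, C (σ (h b)) * ∑ j, Φ b j * C (u j) = 0 := by
  have hq0 : 0 < q := by omega
  have hx : (fun b => C (u b)) ∈ UU S := hu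
  have key : ∀ b, ∑ j, Φ b j * C (u j) =
      ∑ i ∈ Finset.range q, X ^ (q - 1 - i) * (NN q i τ Φ (fun b => C (u b)) b) ^ q :=
    fun b => image_eq hq0 hστ hexp (Φ := Φ) (fun b => C (u b)) b
  have h1 : ∀ i ∈ Finset.range q, ∑ b, C (σ (h b)) * (NN q i τ Φ (fun b => C (u b)) b) ^ q = 0 := by
    intro i hi
    rw [Finset.mem_range] at hi
    have h2 : ∀ b, NN q i τ Φ (fun b => C (u b)) b = C ((NN q i τ Φ (fun b => C (u b)) b).coeff 0) := by
      intro b
      apply eq_C_of_natDegree_le_zero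
      refine (natDegree_NN hq0 hf (n := 0) (fun b => (natDegree_C _).le) hi b).trans ?_
      rw [add_zero, Nat.div_eq_of_lt (by omega)]
    have h3 : (fun b => (NN q i τ Φ (fun b => C (u b)) b).coeff 0) ∈ U0 S := by
      rw [mem_U0]
      have h4 := NN_mem hq0 hτσ hS hx hi
      have h5 : (fun b => C ((NN q i τ Φ (fun b => C (u b)) b).coeff 0)) =
          NN q i τ Φ (fun b => C (u b)) := funext fun b => (h2 b).symm
      rw [h5]
      exact h4
    have h6 := hh _ h3
    have h7 : ∀ b, C (σ (h b)) * (NN q i τ Φ (fun b => C (u b)) b) ^ q =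
        C (σ (h b * (NN q i τ Φ (fun b => C (u b)) b).coeff 0)) := by
      intro b
      conv_lhs => rw [h2 b]
      rw [map_mul σ, hσ ((NN q i τ Φ (fun b => C (u b)) b).coeff 0), C_mul, C_pow]
    rw [Finset.sum_congr rfl fun b _ => h7 b, ← map_sum C, ← map_sum σ, h6, map_zero, C_0]
  calc ∑ b, C (σ (h b)) * ∑ j, Φ b j * C (u j)
      = ∑ b, ∑ i ∈ Finset.range q, X ^ (q - 1 - i) *
          (C (σ (h b)) * (NN q i τ Φ (fun b => C (u b)) b) ^ q) := by
        refine Finset.sum_congr rfl fun b _ => ?_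
        rw [key b, Finset.mul_sum]
        refine Finset.sum_congr rfl fun i _ => ?_
        ring
    _ = ∑ i ∈ Finset.range q, X ^ (q - 1 - i) *
          ∑ b, C (σ (h b)) * (NN q i τ Φ (fun b => C (u b)) b) ^ q := by
        rw [Finset.sum_comm]
        refine Finset.sum_congr rfl fun i _ => ?_
        rw [Finset.mul_sum]
    _ = 0 := by
        refine Finset.sum_eq_zero fun i hi => ?_
        rw [h1 i hi, mul_zero]

/-- **a reducible matrix is block triangular in a constant basis** -/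
theorem exists_block (hq : q = p ^ a) (hστ : ∀ x, σ (τ x) = x) (hτσ : ∀ x, τ (σ x) = x)
    (hσ : ∀ x, σ x = x ^ q)
    (hexp : ∀ g : k[X], expand k q (g.map σ) = g ^ q) {Φ : Matrix (Fin r) (Fin r) k[X]}
    (hdet : Φ.det ≠ 0) {f : ℕ} (hf : ∀ i j, (Φ i j).natDegree ≤ f) (hfq : f + 2 ≤ q)
    (hirr : ¬ IrrXS q σ Φ) :
    ∃ (r₁ r₂ : ℕ) (G : Matrix (Fin r) (Fin r₁ ⊕ Fin r₂) k)
      (H : Matrix (Fin r₁ ⊕ Fin r₂) (Fin r) k), 0 < r₁ ∧ 0 < r₂ ∧ r₁ + r₂ = r ∧ G * H = 1 ∧
      H * G = 1 ∧ ∀ (i : Fin r₂) (j : Fin r₁),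
        ((H.map σ).map C * Φ * G.map C) (Sum.inr i) (Sum.inl j) = 0 := by
  classical
  unfold IrrXS at hirr
  push Not at hirr
  obtain ⟨S, L₀, u₀, hL₀, hL₀0, hu₀, hu₀S, hst⟩ := hirr
  have hS : Stab q σ Φ S := fun x hx L hL => hst x hx L hL
  have hconst := sp_const (RatFunc k) hq hστ hτσ hexp hdet hS hf hfq
  obtain ⟨r₁, r₂, G, H, h1, h2, h3, h4, h5, h6⟩ := exists_adapted (U0 S)
  have hbot : U0 S ≠ ⊥ := by
    intro hb
    have h7 : io (RatFunc k) u₀ ∈ sp (RatFunc k) (UU S) :=
      Submodule.subset_span ⟨u₀, hu₀S, rfl⟩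
    rw [← hconst] at h7
    have h8 : sp (RatFunc k) (UD S 0) = ⊥ := by
      unfold sp
      rw [Submodule.span_eq_bot]
      rintro _ ⟨x, hx, rfl⟩
      have h9 : ∀ b, x b = C ((x b).coeff 0) := fun b =>
        eq_C_of_natDegree_le_zero (hx.2 b)
      have h10 : (fun b => (x b).coeff 0) ∈ U0 S := by
        rw [mem_U0]
        have : (fun b => C ((x b).coeff 0)) = x := funext fun b => (h9 b).symm
        rw [this]
        exact hx.1
      rw [hb, Submodule.mem_bot] at h10
      funext b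
      show algebraMap k[X] (RatFunc k) (x b) = 0
      rw [h9 b]
      have h11 : (x b).coeff 0 = 0 := congrFun h10 b
      rw [h11, C_0, map_zero]
    rw [h8, Submodule.mem_bot] at h7
    apply hu₀
    apply io_injective (RatFunc k)
    rw [h7]
    funext b
    show 0 = algebraMap k[X] (RatFunc k) ((0 : Fin r → k[X]) b)
    rw [Pi.zero_apply, map_zero]
  have htop : U0 S ≠ ⊤ := by
    intro ht
    apply hL₀0
    funext b
    have h7 : (Pi.single b 1 : Fin r → k) ∈ U0 S := by
      rw [ht]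
      exact Submodule.mem_top
    have h8 := h7 L₀ hL₀
    rw [Finset.sum_eq_single b] at h8
    · dsimp only at h8
      rwa [Pi.single_eq_same, C_1, mul_one] at h8
    · intro c _ hc
      dsimp only
      rw [Pi.single_eq_of_ne hc, C_0, mul_zero]
    · intro hb
      exact absurd (Finset.mem_univ b) hb
  have hr₁ : 0 < r₁ := by
    rw [h1]
    exact Nat.pos_of_ne_zero fun h0 => hbot (Submodule.finrank_eq_zero.1 h0)
  have hr₂ : 0 < r₂ := by
    have h7 := Submodule.finrank_lt htop
    rw [finrank_fin_fun, ← h1] at h7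
    omega
  refine ⟨r₁, r₂, G, H, hr₁, hr₂, h2, h3, h4, ?_⟩
  intro i j
  have h7 := kill hστ hτσ hσ hexp hS hf hfq (h6 i) (h5 j)
  rw [← h7, Matrix.mul_apply]
  simp only [Matrix.mul_apply, Finset.sum_mul, Finset.mul_sum, Matrix.map_apply]
  rw [Finset.sum_comm]
  refine Finset.sum_congr rfl fun b _ => Finset.sum_congr rfl fun j' _ => ?_
  ring

end block

end Pool.Agent.K4H5.US
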