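import Pool.Agent.K4H5.US.Block

/-!
The count of the polynomials with a fixed vector for matrices of small degree, without a condition of
irreducibility.
-/

set_option autoImplicit false
set_option linter.unusedSectionVars false

open Polynomial Module

namespace Pool.Agent.K4H5.US

open Pool.Agent.Y709 Pool.Agent.Y515.CntG Pool.Agent.Y709.Irr Pool.Agent.Y709.IrrS

section bad

variable {k : Type} [Field k] [Fintype k] {q r N : ℕ} {σ : k →+* k}

/-- the polynomials with a fixed vector -/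
def Bad {k : Type} [Field k] (q N : ℕ) (σ : k →+* k) {ι : Type} [Fintype ι]
    (Φ : Matrix ι ι k[X]) : Set k[X] :=
  {D | D.natDegree ≤ N ∧ ∃ w : ι → k[X], w ≠ 0 ∧
    ∀ i, cart q (D * ∑ j, Φ i j * w j) = (w i).map σ}

theorem bad_finite {ι : Type} [Fintype ι] (Φ : Matrix ι ι k[X]) : (Bad q N σ Φ).Finite :=
  (finite_natDegree_le N).subset fun _ hD => hD.1

theorem bad_conj (hq0 : 0 < q) {Φ : Matrix (Fin r) (Fin r) k[X]} {ι : Type} [Fintype ι]
    [DecidableEq ι] {G : Matrix (Fin r) ι k} {H : Matrix ι (Fin r) k} (hGH : G * H = 1)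
    (B : k[X]) :
    Bad q N σ (B • Φ) ⊆ Bad q N σ (B • ((H.map σ).map C * Φ * G.map C)) := by
  classical
  rintro D ⟨hD, w, hw, h⟩
  have hGH' : (G.map C : Matrix (Fin r) ι k[X]) * H.map C = 1 := by
    rw [← Matrix.map_mul, hGH, Matrix.map_one _ C_0 C_1]
  refine ⟨hD, (H.map C).mulVec w, ?_, ?_⟩
  · intro h0
    apply hw
    have h1 := congrArg ((G.map C).mulVec) h0
    rwa [Matrix.mulVec_mulVec, hGH', Matrix.one_mulVec, Matrix.mulVec_zero] at h1
  · intro i
    have h1 : ∑ l, (B • ((H.map σ).map C * Φ * G.map C)) i l * (H.map C).mulVec w l =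
        ∑ b, C (σ (H i b)) * ∑ j, (B • Φ) b j * w j := by
      have h2 : (B • ((H.map σ).map C * Φ * G.map C)).mulVec ((H.map C).mulVec w) =
          ((H.map σ).map C : Matrix ι (Fin r) k[X]).mulVec ((B • Φ).mulVec w) := by
        rw [Matrix.mulVec_mulVec, Matrix.mulVec_mulVec, Matrix.smul_mul, Matrix.mul_assoc, hGH',
          Matrix.mul_one, Matrix.mul_smul]
      exact congrFun h2 i
    rw [h1, Finset.mul_sum, cart_sum hq0]
    have h3 : ∀ b, cart q (D * (C (σ (H i b)) * ∑ j, (B • Φ) b j * w j)) =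
        (C (H i b) * w b).map σ := by
      intro b
      rw [mul_left_comm, cart_C_mul hq0, h b, Polynomial.map_mul, Polynomial.map_C]
    rw [Finset.sum_congr rfl fun b _ => h3 b, ← Polynomial.map_sum]
    rfl

theorem bad_block {ι κ : Type} [Fintype ι] [Fintype κ] (Φ' : Matrix ι ι k[X]) (Y : Matrix ι κ k[X])
    (Φ'' : Matrix κ κ k[X]) :
    Bad q N σ (Matrix.fromBlocks Φ' Y 0 Φ'') ⊆ Bad q N σ Φ' ∪ Bad q N σ Φ'' := by
  rintro D ⟨hD, w, hw, h⟩
  by_cases h0 : (fun j => w (Sum.inr j)) = 0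
  · left
    refine ⟨hD, fun j => w (Sum.inl j), ?_, ?_⟩
    · intro h1
      apply hw
      funext j
      rcases j with j | j
      · exact congrFun h1 j
      · exact congrFun h0 j
    · intro i
      have h1 := h (Sum.inl i)
      rw [Fintype.sum_sum_type] at h1
      have h2 : ∑ j, Matrix.fromBlocks Φ' Y 0 Φ'' (Sum.inl i) (Sum.inr j) * w (Sum.inr j) = 0 := by
        refine Finset.sum_eq_zero fun j _ => ?_
        have h3 : w (Sum.inr j) = 0 := congrFun h0 j
        rw [h3, mul_zero]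
      rw [h2, add_zero] at h1
      exact h1
  · right
    refine ⟨hD, fun j => w (Sum.inr j), h0, ?_⟩
    intro i
    have h1 := h (Sum.inr i)
    rw [Fintype.sum_sum_type] at h1
    have h2 : ∑ j, Matrix.fromBlocks Φ' Y 0 Φ'' (Sum.inr i) (Sum.inl j) * w (Sum.inl j) = 0 := by
      refine Finset.sum_eq_zero fun j _ => ?_
      rw [Matrix.fromBlocks_apply₂₁, Matrix.zero_apply, zero_mul]
    rw [h2, zero_add] at h1
    exact h1

end bad

section count

variable {k : Type} [Field k] [Fintype k]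

/-- **the number of the polynomials with a fixed vector, without irreducibility** -/
theorem cnt_all (q s : ℕ) (hk : Fintype.card k = q ^ s) (p a : ℕ)
    [Fact p.Prime] [CharP k p] (hq : q = p ^ a) (hs : 0 < s) (σ : k →+* k)
    (hσ : ∀ x, σ x = x ^ q) {B : k[X]} (hB : B ≠ 0) {f₁ κ ρ V N : ℕ} (hfq : f₁ + 2 ≤ q) {δ : k[X]}
    (hδ : δ ≠ 0) (hκ : ∀ P : k[X], Irreducible P → ¬ P ^ (κ + 1) ∣ B * δ) (hρq : ρ + 2 ≤ q)
    (hN : N + (B.natDegree + f₁) = (q - 1) * V + ρ) :
    ∀ r : ℕ, κ + 3 * r + 4 ≤ q → 4 * (r + 1) ^ 2 ≤ q → 2 * r + 1 ≤ ρ →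
      8 * (r + 1) ^ 2 * (B.natDegree + f₁ + 1) ≤ V →
      ∀ Φ Ψ : Matrix (Fin r) (Fin r) k[X], (∀ i j, (Φ i j).natDegree ≤ f₁) →
      (Matrix.of fun i j => (Φ i j).coeff f₁).det ≠ 0 →
      Φ * Ψ = δ • (1 : Matrix (Fin r) (Fin r) k[X]) →
      q * (Bad q N σ (B • Φ)).ncard ≤ 2 * r * Nat.card k ^ (N + 1) := by
  classical
  have hq0 : 0 < q := by omega
  have hbij : Function.Bijective σ := Finite.injective_iff_bijective.1 σ.injective
  let e : k ≃+* k := RingEquiv.ofBijective σ hbij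
  have hστ : ∀ x, σ ((e.symm : k →+* k) x) = x := fun x => e.apply_symm_apply x
  have hτσ : ∀ x, (e.symm : k →+* k) (σ x) = x := fun x => e.symm_apply_apply x
  have hexp : ∀ g : k[X], expand k q (g.map σ) = g ^ q := by
    intro g
    have h1 : σ = iterateFrobenius k p a := by
      ext x
      rw [hσ, hq, iterateFrobenius_def]
    have h2 := Polynomial.map_iterateFrobenius_expand p g a
    rw [← h1, ← hq] at h2
    rw [← h2, Polynomial.map_expand]
  intro r
  induction r using Nat.strong_induction_on with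
  | _ r ih =>
  intro hκq hrq hρr hV Φ Ψ hf hlead hΨ
  rcases Nat.eq_zero_or_pos r with h0 | hr
  · subst h0
    have : Bad q N σ (B • Φ) = ∅ := by
      rw [Set.eq_empty_iff_forall_notMem]
      rintro D ⟨_, w, hw, _⟩
      exact hw (Subsingleton.elim _ _)
    rw [this, Set.ncard_empty, mul_zero]
    exact Nat.zero_le _
  by_cases hirr : IrrXS q σ Φ
  · -- the irreducible case
    have h1 := Pool.Agent.Y515.cntDetS k q s hk p a hq hs σ hσ r (B • Φ) Ψ (B * δ)
      (B.natDegree + f₁) κ ρ V N ?_ ?_ (mul_ne_zero hB hδ) ?_ hκ (irr_smulS hirr hB) hκq hrq hρr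
      hρq hV hN
    · have h2 : (Bad q N σ (B • Φ)).ncard = Nat.card {D : k[X] // D.natDegree ≤ N ∧
          ∃ w : Fin r → k[X], w ≠ 0 ∧ ∀ i, cart q (D * ∑ j, (B • Φ) i j * w j) = (w i).map σ} :=
        (Nat.card_coe_set_eq _).symm
      rw [h2]
      refine h1.trans (Nat.mul_le_mul_right _ ?_)
      omega
    · intro i j
      rw [Matrix.smul_apply, smul_eq_mul]
      exact natDegree_mul_le.trans (Nat.add_le_add_left (hf i j) _)
    · have h2 : (Matrix.of fun i j => ((B • Φ) i j).coeff (B.natDegree + f₁)) =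
          B.leadingCoeff • (Matrix.of fun i j => (Φ i j).coeff f₁) := by
        refine Matrix.ext fun i j => ?_
        show (B * Φ i j).coeff (B.natDegree + f₁) = B.leadingCoeff * (Φ i j).coeff f₁
        rw [coeff_mul_add_eq_of_natDegree_le le_rfl (hf i j)]
        rfl
      rw [h2, Matrix.det_smul]
      exact mul_ne_zero (pow_ne_zero _ (leadingCoeff_ne_zero.2 hB)) hlead
    · rw [Matrix.smul_mul, hΨ, smul_smul]
  · -- the reducible case
    have hdet : Φ.det ≠ 0 := by
      intro h0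
      have h1 := congrArg Matrix.det hΨ
      rw [Matrix.det_mul, h0, zero_mul, Matrix.det_smul, Matrix.det_one, mul_one] at h1
      exact pow_ne_zero _ hδ h1.symm
    obtain ⟨r₁, r₂, G, H, hr₁, hr₂, hrr, hGH, hHG, hz⟩ :=
      exists_block hq hστ hτσ hσ hexp hdet hf hfq hirr
    set Φt : Matrix (Fin r₁ ⊕ Fin r₂) (Fin r₁ ⊕ Fin r₂) k[X] := (H.map σ).map C * Φ * G.map C
      with hΦt
    set Ψt : Matrix (Fin r₁ ⊕ Fin r₂) (Fin r₁ ⊕ Fin r₂) k[X] := H.map C * Ψ * (G.map σ).map C
      with hΨt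
    have hGH' : (G.map C : Matrix (Fin r) (Fin r₁ ⊕ Fin r₂) k[X]) * H.map C = 1 := by
      rw [← Matrix.map_mul, hGH, Matrix.map_one _ C_0 C_1]
    have hHGσ : (H.map σ) * (G.map σ) = 1 := by
      rw [← Matrix.map_mul, hHG, Matrix.map_one _ (map_zero σ) (map_one σ)]
    have hGHσ : (G.map σ) * (H.map σ) = 1 := by
      rw [← Matrix.map_mul, hGH, Matrix.map_one _ (map_zero σ) (map_one σ)]
    have hHGσ' : ((H.map σ).map C : Matrix (Fin r₁ ⊕ Fin r₂) (Fin r) k[X]) * (G.map σ).map C = 1 := by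
      rw [← Matrix.map_mul, hHGσ, Matrix.map_one _ C_0 C_1]
    have hprod : Φt * Ψt = δ • (1 : Matrix (Fin r₁ ⊕ Fin r₂) (Fin r₁ ⊕ Fin r₂) k[X]) := by
      calc Φt * Ψt = (H.map σ).map C * Φ * ((G.map C * H.map C) * Ψ * (G.map σ).map C) := by
            rw [hΦt, hΨt]
            simp only [Matrix.mul_assoc]
        _ = (H.map σ).map C * (Φ * Ψ) * (G.map σ).map C := by
            rw [hGH', Matrix.one_mul]
            simp only [Matrix.mul_assoc]
        _ = _ := by
            rw [hΨ, Matrix.mul_smul, Matrix.mul_one, Matrix.smul_mul, hHGσ']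
    have hblk : Φt = Matrix.fromBlocks Φt.toBlocks₁₁ Φt.toBlocks₁₂ 0 Φt.toBlocks₂₂ := by
      conv_lhs => rw [← Matrix.fromBlocks_toBlocks Φt]
      congr 1
      refine Matrix.ext fun i j => ?_
      exact hz i j
    have hft : ∀ i j, (Φt i j).natDegree ≤ f₁ := by
      intro i j
      rw [hΦt, Matrix.mul_apply]
      refine natDegree_sum_le_of_forall_le _ _ fun c _ => ?_
      refine natDegree_mul_le.trans ?_
      rw [Matrix.map_apply, natDegree_C, add_zero, Matrix.mul_apply]
      refine natDegree_sum_le_of_forall_le _ _ fun b _ => ?_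
      rw [Matrix.map_apply]
      exact (natDegree_C_mul_le _ _).trans (hf b c)
    have hcoef : (Matrix.of fun i j => (Φt i j).coeff f₁) =
        H.map σ * (Matrix.of fun i j => (Φ i j).coeff f₁) * G := by
      refine Matrix.ext fun i j => ?_
      rw [Matrix.of_apply, hΦt, Matrix.mul_apply, Matrix.mul_apply, finsetSum_coeff]
      refine Finset.sum_congr rfl fun c _ => ?_
      rw [Matrix.map_apply, coeff_mul_C, Matrix.mul_apply, Matrix.mul_apply, finsetSum_coeff]
      congr 1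
      refine Finset.sum_congr rfl fun b _ => ?_
      rw [Matrix.map_apply, coeff_C_mul, Matrix.of_apply]
    have hleadt : (Matrix.of fun i j => (Φt i j).coeff f₁).det ≠ 0 := by
      rw [hcoef]
      set L := (Matrix.of fun i j => (Φ i j).coeff f₁) with hL
      have hu : IsUnit L.det := isUnit_iff_ne_zero.2 hlead
      apply Matrix.det_ne_zero_of_left_inverse (B := H * L⁻¹ * G.map σ)
      calc H * L⁻¹ * G.map σ * (H.map σ * L * G) = H * L⁻¹ * ((G.map σ * H.map σ) * L) * G := by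
            simp only [Matrix.mul_assoc]
        _ = H * (L⁻¹ * L) * G := by
            rw [hGHσ, Matrix.one_mul]
            simp only [Matrix.mul_assoc]
        _ = 1 := by rw [Matrix.nonsing_inv_mul _ hu, Matrix.mul_one, hHG]
    have hlead2 : (Matrix.of fun i j => (Φt.toBlocks₁₁ i j).coeff f₁).det *
        (Matrix.of fun i j => (Φt.toBlocks₂₂ i j).coeff f₁).det ≠ 0 := by
      have h1 : (Matrix.of fun i j => (Φt i j).coeff f₁) =
          Matrix.fromBlocks (Matrix.of fun i j => (Φt.toBlocks₁₁ i j).coeff f₁)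
            (Matrix.of fun i j => (Φt.toBlocks₁₂ i j).coeff f₁) 0
            (Matrix.of fun i j => (Φt.toBlocks₂₂ i j).coeff f₁) := by
        refine Matrix.ext fun i j => ?_
        rcases i with i | i <;> rcases j with j | j
        · rfl
        · rfl
        · rw [Matrix.fromBlocks_apply₂₁, Matrix.of_apply, Matrix.zero_apply, hz i j, coeff_zero]
        · rfl
      rw [h1, Matrix.det_fromBlocks_zero₂₁] at hleadt
      exact hleadt
    have hΨblk := (Matrix.fromBlocks_toBlocks Ψt).symm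
    have hmul : Matrix.fromBlocks Φt.toBlocks₁₁ Φt.toBlocks₁₂ 0 Φt.toBlocks₂₂ *
        Matrix.fromBlocks Ψt.toBlocks₁₁ Ψt.toBlocks₁₂ Ψt.toBlocks₂₁ Ψt.toBlocks₂₂ =
        Matrix.fromBlocks (δ • 1) 0 0 (δ • 1) := by
      rw [← hblk, ← hΨblk, hprod, ← Matrix.fromBlocks_one, Matrix.fromBlocks_smul, smul_zero,
        smul_zero]
    rw [Matrix.fromBlocks_multiply, Matrix.fromBlocks_inj] at hmul
    obtain ⟨hm11, _, hm21, hm22⟩ := hmul
    rw [Matrix.zero_mul, zero_add] at hm21 hm22
    have hdet2 : Φt.toBlocks₂₂.det ≠ 0 := by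
      intro h0
      have h1 := congrArg Matrix.det hm22
      rw [Matrix.det_mul, h0, zero_mul, Matrix.det_smul, Matrix.det_one, mul_one] at h1
      exact pow_ne_zero _ hδ h1.symm
    have h21 : Ψt.toBlocks₂₁ = 0 := by
      have h1 : Φt.toBlocks₂₂.adjugate * (Φt.toBlocks₂₂ * Ψt.toBlocks₂₁) =
          Φt.toBlocks₂₂.adjugate * (0 : Matrix (Fin r₂) (Fin r₁) k[X]) := by rw [hm21]
      rw [← Matrix.mul_assoc, Matrix.adjugate_mul, Matrix.smul_mul, Matrix.one_mul,
        Matrix.mul_zero] at h1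
      exact (smul_eq_zero.1 h1).resolve_left hdet2
    rw [h21, Matrix.mul_zero, add_zero] at hm11
    have hle1 : (r₁ + 1) ^ 2 ≤ (r + 1) ^ 2 := Nat.pow_le_pow_left (by omega) 2
    have hle2 : (r₂ + 1) ^ 2 ≤ (r + 1) ^ 2 := Nat.pow_le_pow_left (by omega) 2
    have hc1 := ih r₁ (by omega) (by omega) (by omega) (by omega)
      (le_trans (Nat.mul_le_mul_right _ (Nat.mul_le_mul_left _ hle1)) hV) Φt.toBlocks₁₁
      Ψt.toBlocks₁₁ (fun i j => hft (Sum.inl i) (Sum.inl j)) (left_ne_zero_of_mul hlead2) hm11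
    have hc2 := ih r₂ (by omega) (by omega) (by omega) (by omega)
      (le_trans (Nat.mul_le_mul_right _ (Nat.mul_le_mul_left _ hle2)) hV) Φt.toBlocks₂₂
      Ψt.toBlocks₂₂ (fun i j => hft (Sum.inr i) (Sum.inr j)) (right_ne_zero_of_mul hlead2) hm22
    have hsub : Bad q N σ (B • Φ) ⊆ Bad q N σ (B • Φt.toBlocks₁₁) ∪
        Bad q N σ (B • Φt.toBlocks₂₂) := by
      refine (bad_conj hq0 hGH B).trans ?_
      rw [← hΦt, hblk, Matrix.fromBlocks_smul, smul_zero]
      exact bad_block _ _ _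
    have hcard := (Set.ncard_le_ncard hsub ((bad_finite _).union (bad_finite _))).trans
      (Set.ncard_union_le _ _)
    calc q * (Bad q N σ (B • Φ)).ncard ≤ q * ((Bad q N σ (B • Φt.toBlocks₁₁)).ncard +
          (Bad q N σ (B • Φt.toBlocks₂₂)).ncard) := Nat.mul_le_mul_left q hcard
      _ ≤ 2 * r₁ * Nat.card k ^ (N + 1) + 2 * r₂ * Nat.card k ^ (N + 1) := by
          rw [mul_add]
          exact Nat.add_le_add hc1 hc2
      _ = 2 * r * Nat.card k ^ (N + 1) := by
          rw [← hrr]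
          ring

end count

end Pool.Agent.K4H5.US
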