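import Pool.Agent.K4H5.US.Lead
import Pool.Agent.K4H5.PT.Most

/-!
The number of the twists with a zero at `s = 1` over some covering of `p`-power degree without
anomalous ramified places, for every pencil of small degree whose sections are distinct at infinity.
-/

set_option autoImplicit false
set_option linter.unusedSectionVars false

open Polynomial Module

namespace Pool.Agent.K4H5.US

open Pool.Agent.W313.Hyp Pool.Agent.W343.BSD Pool.Agent.Y709 Pool.Agent.Y709.Gen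
open Pool.Agent.Y709.Lay Pool.Agent.Y709.Irr Pool.Agent.Y709.IrrS Pool.Agent.K4H5.PT

section every

variable {k : Type} [Field k] [Fintype k] {r q : ℕ}

theorem not_pow_dvd_of_natDegree_le {A P : k[X]} (hA : A ≠ 0) (hP : Irreducible P) {n : ℕ}
    (hn : A.natDegree ≤ n) : ¬ P ^ (n + 1) ∣ A := by
  intro h
  have h1 := natDegree_le_of_dvd h hA
  rw [natDegree_pow] at h1
  have h2 : 0 < P.natDegree := hP.natDegree_pos
  have h3 : n + 1 ≤ (n + 1) * P.natDegree := Nat.le_mul_of_pos_right _ h2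
  omega

/-- the number of the twists with a fixed vector -/
theorem bound_every {p a s : ℕ} [hp : Fact p.Prime] [CharP k p] (hq : q = p ^ a) (ha : 0 < a)
    (hs : 0 < s) (hk : Fintype.card k = q ^ s) (B : k[X]) (hB : B ≠ 0)
    (b : ℕ) (hb : ∀ P : k[X], Irreducible P → ¬ P ^ (b + 1) ∣ B) {β : Fin (r + 1) → k[X]}
    {m : Fin (r + 1) → ℕ} {d : ℕ} (hr : 0 < r) (hd : 0 < d) (hβ : ∀ i, (β i).natDegree ≤ d)
    (hβd : ∀ i j, i ≠ j → (β i - β j).natDegree = d) (hm : ∀ i, 0 < m i)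
    (hinv : ∀ i : ℕ, i < ∑ l, m l → ((i : k) + 1) ≠ 0)
    (hnb : b + r * (d * ∑ l, m l) + 3 * r + 4 ≤ q) (hrq : 4 * (r + 1) ^ 2 ≤ q) (f ρ V N : ℕ)
    (hf : f = B.natDegree + d * ∑ l, m l) (hρ : 2 * r + 1 ≤ ρ) (hρq : ρ + 2 ≤ q)
    (hV : 8 * (r + 1) ^ 2 * (f + 1) ≤ V) (hN : N + f = (q - 1) * V + ρ) :
    q * Nat.card {D : k[X] // D.natDegree ≤ N ∧ ∃ w : Fin r → k[X], w ≠ 0 ∧
      ∀ i, cart q (D * ∑ j, minor B β m i j * w j) = (w i).map (iterateFrobenius k p a)} ≤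
      2 * r * Nat.card k ^ (N + 1) := by
  have hσ : ∀ x, iterateFrobenius k p a x = x ^ q := fun x => by rw [iterateFrobenius_def, hq]
  have hrd : d * ∑ l, m l ≤ r * (d * ∑ l, m l) := Nat.le_mul_of_pos_left _ hr
  have hdn : ∑ l, m l ≤ d * ∑ l, m l := Nat.le_mul_of_pos_left _ hd
  have hmle : ∀ i, m i < q := by
    intro i
    have : m i ≤ ∑ i, m i := Finset.single_le_sum (f := m) (fun _ _ => Nat.zero_le _)
      (Finset.mem_univ i)
    omega
  have hinj : Function.Injective β := by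
    intro i j hij
    by_contra hne
    have h1 := hβd i j hne
    rw [sub_eq_zero.2 hij, natDegree_zero] at h1
    omega
  have hdet := det_minor (k := k) hq ha (one_ne_zero (α := k[X])) hinj hm hmle hinv
  have hdeg1 : ∀ i j, (minor 1 β m i j).natDegree ≤ d * ∑ l, m l := by
    intro i j
    unfold minor
    rw [Matrix.of_apply, one_mul]
    exact natDegree_phi hβ hm _ _ _
  have hdd : (minor 1 β m).det.natDegree ≤ r * (d * ∑ l, m l) := by
    rw [Matrix.det_apply]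
    refine natDegree_sum_le_of_forall_le _ _ fun σ _ => ?_
    refine (natDegree_smul_le _ _).trans ?_
    refine (natDegree_prod_le _ _).trans ?_
    refine (Finset.sum_le_card_nsmul _ _ _ fun i _ => hdeg1 _ _).trans ?_
    rw [Finset.card_univ, Fintype.card_fin, smul_eq_mul]
  have hmain := cnt_all q s hk p a hq hs (iterateFrobenius k p a) hσ hB (f₁ := d * ∑ l, m l)
    (κ := b + r * (d * ∑ l, m l)) (ρ := ρ) (V := V) (N := N) (by omega) (δ := (minor 1 β m).det) hdet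
    (fun P hP => by
      exact not_pow_dvd_mul hP.prime (hb P hP) (not_pow_dvd_of_natDegree_le hdet hP hdd)) hρq
    (by rw [← hf]; exact hN) r (by omega) hrq hρ (by rw [← hf]; exact hV) (minor 1 β m)
    (minor 1 β m).adjugate hdeg1 (lead_minor hq ha hd hβ hβd hm hmle hinv) (Matrix.mul_adjugate _)
  have h1 : B • minor 1 β m = minor B β m := by
    rw [minor_eq B β m]
    rfl
  rw [h1] at hmain
  refine le_trans (le_of_eq ?_) hmain
  congr 1

/-- **the number of the twists with a zero over some covering, every pencil** -/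
theorem count_every {p f₀ s : ℕ} [hp : Fact p.Prime] [CharP k p] (hq : q = p ^ f₀) (hf₀ : 0 < f₀)
    (hs : 0 < s) (hk : Fintype.card k = q ^ s) (B : k[X]) (hB : B ≠ 0)
    (b : ℕ) (hb : ∀ P : k[X], Irreducible P → ¬ P ^ (b + 1) ∣ B) {β : Fin (r + 1) → k[X]}
    {m : Fin (r + 1) → ℕ} {d : ℕ} (hr : 0 < r) (hd : 0 < d) (hβ : ∀ i, (β i).natDegree ≤ d)
    (hβd : ∀ i j, i ≠ j → (β i - β j).natDegree = d) (hm : ∀ i, 0 < m i)
    (hmp : ∑ l, m l < p)
    (hnb : b + r * (d * ∑ l, m l) + 3 * r + 4 ≤ q) (hrq : 4 * (r + 1) ^ 2 ≤ q) (f ρ V N : ℕ)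
    (hf : f = B.natDegree + d * ∑ l, m l) (hρ : 2 * r + 1 ≤ ρ) (hρq : ρ + 2 ≤ q)
    (hV : 8 * (r + 1) ^ 2 * (f + 1) ≤ V) (hN : N + f = (q - 1) * V + ρ) :
    q * {D : k[X] | D.natDegree ≤ N ∧ VanN p q s (D * B) β m}.ncard ≤
      2 * r * Nat.card k ^ (N + 1) := by
  classical
  obtain ⟨φ⟩ := exists_const k p f₀ s hf₀ (by rw [hk, hq])
  let k₀ := GaloisField p f₀
  let _ : Algebra k₀ k := φ.toAlgebra
  have hfin : Finite k₀ := Nat.finite_of_card_ne_zero (by
    rw [GaloisField.card p f₀ hf₀.ne']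
    exact pow_ne_zero _ hp.out.ne_zero)
  let _ : Fintype k₀ := Fintype.ofFinite k₀
  have hk₀ : Fintype.card k₀ = q := by
    rw [← Nat.card_eq_fintype_card, GaloisField.card p f₀ hf₀.ne', hq]
  have hcp : CharP k₀ p := φ.charP φ.injective p
  have hrd : d * ∑ l, m l ≤ r * (d * ∑ l, m l) := Nat.le_mul_of_pos_left _ hr
  have hdn : ∑ l, m l ≤ d * ∑ l, m l := Nat.le_mul_of_pos_left _ hd
  have hinv : ∀ i : ℕ, i < ∑ l, m l → ((i : k₀) + 1) ≠ 0 := by
    intro i hi h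
    have h1 : ((i + 1 : ℕ) : k₀) = 0 := by rw [Nat.cast_succ, h]
    rw [CharP.cast_eq_zero_iff k₀ p] at h1
    have h2 := Nat.le_of_dvd (Nat.succ_pos i) h1
    omega
  have hinv' : ∀ i : ℕ, i < ∑ l, m l → ((i : k) + 1) ≠ 0 := by
    intro i hi h
    have h1 : ((i + 1 : ℕ) : k) = 0 := by rw [Nat.cast_succ, h]
    rw [CharP.cast_eq_zero_iff k p] at h1
    have h2 := Nat.le_of_dvd (Nat.succ_pos i) h1
    omega
  have h6 := bound_every hq hf₀ hs hk B hB b hb hr hd hβ hβd hm hinv' hnb hrq f ρ V N hf hρ hρq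
    hV hN
  have hsub : {D : k[X] | D.natDegree ≤ N ∧ VanN p q s (D * B) β m} ⊆
      {D : k[X] | D.natDegree ≤ N ∧ ∃ w : Fin r → k[X], w ≠ 0 ∧
        ∀ i, cart q (D * ∑ j, minor B β m i j * w j) = (w i).map (iterateFrobenius k p f₀)} := by
    rintro D ⟨hD, G, O, i1, i2, i3, i4, i5, i6, i7, hG, ⟨R₀, hR₀, hun⟩, hna, χ₁, h1, H, hH⟩
    obtain ⟨χ₂, h3, h4⟩ := exists_char (k₀ := k₀) hk₀ χ₁ h1
    have hn0 : 0 < ∑ i, m i := Finset.sum_pos (fun i _ => hm i) ⟨0, Finset.mem_univ _⟩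
    have hq5 : 5 ≤ q := by omega
    refine ⟨hD, fixed_minorR (k₀ := k₀) G hq hf₀ hk₀ hs hk hq5 hG χ₂ h3 B β m hm (by omega)
      hinv D R₀ hR₀ hun hna H ?_⟩
    rw [← LO_norm G h4, hH, Nat.card_eq_fintype_card, hk]
  have h7 : {D : k[X] | D.natDegree ≤ N ∧ VanN p q s (D * B) β m}.ncard ≤
      Nat.card {D : k[X] // D.natDegree ≤ N ∧ ∃ w : Fin r → k[X], w ≠ 0 ∧
        ∀ i, cart q (D * ∑ j, minor B β m i j * w j) = (w i).map (iterateFrobenius k p f₀)} := by
    have h8 := Set.ncard_le_ncard hsub ((finite_natDegree_le N).subset fun D hD => hD.1)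
    refine h8.trans (le_of_eq ?_)
    exact (Nat.card_coe_set_eq _).symm
  exact (Nat.mul_le_mul_left q h7).trans h6

end every

end Pool.Agent.K4H5.US
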