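import Pool.Agent.K4H5.KD.Main
import Pool.Agent.K4H5.PT.Control
import Pool.Agent.Y709.Lay.CountX

/-!
The exact formula of Kida without own zeros for the twists without fixed vectors.
-/

set_option autoImplicit false
set_option linter.unusedSectionVars false

open Polynomial Module

namespace Pool.Agent.K4H5.US

open Pool.Agent.W313.Hyp Pool.Agent.W343.BSD Pool.Agent.Y709 Pool.Agent.Y709.Gen
open Pool.Agent.Y709.Lay Pool.Agent.K4H5.BC Pool.Agent.K4H5.KD Pool.Agent.K4H5.PT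
open Pool.Agent.K4H5.BC (LB)

section cur

variable {k : Type} [Field k]

/-- the polynomial of a split pencil -/
noncomputable def cur {k : Type} [Field k] {κ : Type} [Fintype κ] (E : k[X]) (b : κ → k[X])
    (m : κ → ℕ) : k[X][X] :=
  C E * ∏ i, (X - C (b i)) ^ m i

theorem map_cur {κ : Type} [Fintype κ] {F : Type} [Field F] (g : k[X] →+* F) (E : k[X])
    (b : κ → k[X]) (m : κ → ℕ) :
    (cur E b m).map g = fibp (g E) (fun i => g (b i)) m := by
  unfold cur fibp
  simp only [Polynomial.map_mul, map_C, Polynomial.map_prod, Polynomial.map_pow,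
    Polynomial.map_sub, map_X]

theorem natDegree_cur_le {κ : Type} [Fintype κ] (E : k[X]) (b : κ → k[X]) (m : κ → ℕ) :
    (cur E b m).natDegree ≤ ∑ i, m i := by
  unfold cur
  refine (natDegree_C_mul_le _ _).trans ?_
  refine (natDegree_prod_le _ _).trans ?_
  refine Finset.sum_le_sum fun i _ => ?_
  rw [natDegree_pow, natDegree_X_sub_C, mul_one]

variable {k₀ R : Type} [Field k₀] [Algebra k₀ k] [Finite k] [CommRing R]
  {O : Type} [CommRing O] [Algebra k[X] O] (G : Type) [Group G] [Finite G]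
  [MulSemiringAction G O] [IsGaloisGroup G k[X] O]

include G in
theorem LB_cur [Fintype k₀] {κ : Type} [Fintype κ] {χR : MulChar k R} {χ₀ : MulChar k₀ R}
    (h : ∀ u : k, χR u = χ₀ (Algebra.norm k₀ u)) (E : k[X]) (b : κ → k[X]) (m : κ → ℕ) :
    Pool.Agent.K4H5.BC.LB O χR (cur E b m) = LO O χ₀ E b m := by
  unfold Pool.Agent.K4H5.BC.LB LO
  congr 1
  funext z
  have hfd := finiteDim_RO (k := k) G z.1
  have hf : Fact (Irreducible z.2.1) := ⟨z.2.2.2⟩
  have hfd1 : FiniteDimensional (RO k z.1) (AdjoinRoot z.2.1) := z.2.2.1.finite_adjoinRoot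
  have hfd2 : FiniteDimensional k (AdjoinRoot z.2.1) := FiniteDimensional.trans k (RO k z.1) _
  rw [h, map_cur, Algebra.norm_norm]

end cur

theorem pow_mod_le {p f₀ : ℕ} (hp : 0 < p) (hf₀ : 0 < f₀) (i : ℕ) :
    p ^ i % (p ^ f₀ - 1) ≤ p ^ (f₀ - 1) := by
  have h1 : p ^ f₀ ≡ 1 [MOD (p ^ f₀ - 1)] := by
    have h2 : 1 ≤ p ^ f₀ := Nat.one_le_pow _ _ hp
    exact ((Nat.modEq_iff_dvd' h2).2 dvd_rfl).symm
  have h3 : p ^ i ≡ p ^ (i % f₀) [MOD (p ^ f₀ - 1)] := by
    conv_lhs => rw [← Nat.div_add_mod i f₀, pow_add, pow_mul]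
    have h4 := (h1.pow (i / f₀)).mul_right (p ^ (i % f₀))
    rwa [one_pow, one_mul] at h4
  calc p ^ i % (p ^ f₀ - 1) = p ^ (i % f₀) % (p ^ f₀ - 1) := h3
    _ ≤ p ^ (i % f₀) := Nat.mod_le _ _
    _ ≤ p ^ (f₀ - 1) := Nat.pow_le_pow_right hp (by have := Nat.mod_lt i hf₀; omega)

theorem small_digits {p f₀ n : ℕ} (hp : p.Prime) (hf₀ : 0 < f₀) (hnp : n < p)
    (hnq : n < p ^ f₀ - 1) (i : ℕ) : n * (p ^ i * 1 % (p ^ f₀ - 1)) < p ^ f₀ - 1 := by
  rw [mul_one]
  refine lt_of_le_of_lt (Nat.mul_le_mul_left n (pow_mod_le hp.pos hf₀ i)) ?_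
  rcases Nat.lt_or_ge 1 f₀ with h | h
  · have h1 : p ^ f₀ = p * p ^ (f₀ - 1) := by
      rw [← pow_succ', Nat.sub_add_cancel hf₀]
    have h2 : 1 < p ^ (f₀ - 1) := Nat.one_lt_pow (by omega) hp.one_lt
    have h3 : n * p ^ (f₀ - 1) ≤ (p - 1) * p ^ (f₀ - 1) := Nat.mul_le_mul_right _ (by omega)
    have h4 : (p - 1) * p ^ (f₀ - 1) + p ^ (f₀ - 1) = p * p ^ (f₀ - 1) := by
      rw [← Nat.succ_mul]
      congr 1
      have := hp.pos
      omega
    omega
  · have h1 : f₀ = 1 := by omega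
    subst h1
    rw [Nat.sub_self, pow_zero, mul_one]
    exact hnq

/-- **the formula of Kida without own zeros** -/
theorem kida_split (k : Type) [Field k] [Fintype k] (p : ℕ) [hp : Fact p.Prime] [CharP k p]
    {q f₀ s r : ℕ} (hq : q = p ^ f₀) (hf₀ : 0 < f₀) (hs : 0 < s) (hk : Fintype.card k = q ^ s)
    (h5 : 5 ≤ q) (hr : 0 < r) (B₁ : k[X]) (b : Fin (r + 1) → k[X]) (mm : Fin (r + 1) → ℕ)
    (hmm : ∀ i, 0 < mm i) (hmp : ∑ i, mm i < p) (hmq : ∑ i, mm i < q - 1) (D₁ : k[X])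
    (e₁ : ℕ) (T : Finset k)
    (hT : ∀ u : AlgebraicClosure k, u ^ e₁ = 1 →
      ∃ c ∈ T, algebraMap k (AlgebraicClosure k) c ^ ((Fintype.card k - 1) / (q - 1)) = u⁻¹)
    (hD : ∀ c ∈ T, ¬ ∃ w : Fin r → k[X], w ≠ 0 ∧
      ∀ i, cart q (C c * D₁ * ∑ j, minor B₁ b mm i j * w j) =
        (w i).map (iterateFrobenius k p f₀))
    (χ : MulChar k ℂ) (φ : AI →+* AlgebraicClosure k)
    (hφ : ∀ u : k, ∃ x : AI, (x : ℂ) = χ u ∧
      φ x = algebraMap k (AlgebraicClosure k) u ^ ((Fintype.card k - 1) / (q - 1)))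
    (G O : Type) [Group G] [Finite G] [CommRing O] [Algebra k[X] O] [MulSemiringAction G O]
      [IsGaloisGroup G k[X] O] [FaithfulSMul k[X] O] (g : ℕ) (hG : Nat.card G = p ^ g) (B : k[X])
      (hB : B ≠ 0) (hun : ∀ 𝔪 : MaximalSpectrum O, vO k 𝔪 B ≠ 0 → 𝔪.asIdeal.inertia G = ⊥)
      (H : ℂ[X]) (hH : LB O χ (cur (D₁ * B₁) b mm) = (H : PowerSeries ℂ)) (Hloc : MI k → ℂ[X])
      (hloc : ∀ P ∈ divs B, defect O G P ≠ 0 →
        LP χ (cur (D₁ * B₁) b mm) P * (Hloc P : PowerSeries ℂ) = 1) :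
      (∀ u : AlgebraicClosure k, u ^ e₁ = 1 → u ≠ 0 → lam φ (Fintype.card k : ℂ) u H =
          ∑ P ∈ divs B, defect O G P * lam φ (Fintype.card k : ℂ) u (Hloc P)) ∧
      ∃ (u₀ : AlgebraicClosure k) (uloc : MI k → AlgebraicClosure k), u₀ ≠ 0 ∧
        (∀ P ∈ divs B, defect O G P ≠ 0 →
          ResAt φ ((Hloc P).eval (Fintype.card k : ℂ)⁻¹) (uloc P)) ∧
        ResAt φ (H.eval (Fintype.card k : ℂ)⁻¹)
          ((∏ P ∈ divs B, uloc P ^ defect O G P) * u₀) := by
  classical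
  have hp0 := hp.out.pos
  have hp1 := hp.out.one_lt
  set n := q - 1 with hnd
  set a := ∑ i, mm i with had
  set f : k[X][X] := cur (D₁ * B₁) b mm with hfd
  have hn0 : 0 < n := by omega
  have ha : 2 ≤ a := by
    have h1 : ∑ i : Fin (r + 1), 1 ≤ ∑ i, mm i := Finset.sum_le_sum fun i _ => hmm i
    rw [Finset.sum_const, Finset.card_univ, Fintype.card_fin, smul_eq_mul, mul_one] at h1
    omega
  have hf : f.natDegree ≤ a := natDegree_cur_le _ _ _
  have hij : ∀ i, a * ((p ^ i * 1) % n) < n := by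
    intro i
    have := small_digits hp.out hf₀ hmp (by rw [← hq]; exact hmq) i
    rw [← hq] at this
    exact this
  have hjn : 1 < n := by omega
  set F₀ := f₀ * s with hF₀d
  have hF₀ : 0 < F₀ := Nat.mul_pos hf₀ hs
  have hkF : Fintype.card k = p ^ F₀ := by rw [hk, hq, ← pow_mul]
  have hn : n ∣ Fintype.card k - 1 := by
    rw [hk]
    have := Nat.sub_dvd_pow_sub_pow q 1 s
    rwa [one_pow] at this
  have hn' : n ∣ p ^ F₀ - 1 := by
    rw [← hkF]
    exact hn
  set m : ℕ → ℕ := dig p F₀ n 1 with hmdef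
  have hm : ∀ i, m (i + F₀) = m i := dig_per hp0 hn'
  have hq1 : 1 < p ^ F₀ := Nat.one_lt_pow hF₀.ne' hp1
  have hrot : ∀ i, n * rot p F₀ m i = rem p F₀ n 1 i * (p ^ F₀ - 1) := rot_dig hp0 hF₀ hn'
  have har : ∀ i, a * rot p F₀ m i < p ^ F₀ - 1 := by
    intro i
    have h1 : a * rem p F₀ n 1 i < n := hij _
    have h2 : n * (a * rot p F₀ m i) < n * (p ^ F₀ - 1) := by
      calc n * (a * rot p F₀ m i) = a * (n * rot p F₀ m i) := by ring
        _ = (a * rem p F₀ n 1 i) * (p ^ F₀ - 1) := by rw [hrot]; ring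
        _ < n * (p ^ F₀ - 1) := Nat.mul_lt_mul_of_pos_right h1 (by omega)
    exact Nat.lt_of_mul_lt_mul_left h2
  have hrem0 : rem p F₀ n 1 0 = 1 := by
    unfold rem
    rw [mul_zero, pow_zero, one_mul, Nat.mod_eq_of_lt hjn]
  have hM : n * rot p F₀ m 0 = 1 * (p ^ F₀ - 1) := by rw [hrot, hrem0]
  have hM0 : 0 < rot p F₀ m 0 := by
    rcases Nat.eq_zero_or_pos (rot p F₀ m 0) with h | h
    · rw [h, mul_zero] at hM
      omega
    · exact h
  have hMe : (Fintype.card k - 1) / n = rot p F₀ m 0 := by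
    rw [one_mul] at hM
    rw [hkF, ← hM, Nat.mul_div_cancel_left _ hn0]
  rw [hMe] at hφ hT
  have hMn : (Nat.card k - 1) / (q - 1) = rot p F₀ m 0 := by
    rw [← hMe, Nat.card_eq_fintype_card]
  have hKp : CharP (AlgebraicClosure k) p :=
    charP_of_injective_algebraMap (algebraMap k (AlgebraicClosure k)).injective p
  obtain ⟨R, i1, i2, i3, S, ι, jj, hι, hπj, hιj, hfrac, hint, hχι⟩ :=
    exists_sys_of p k (AlgebraicClosure k) φ χ hM0 hφ
  let χR : MulChar k R := (S.wc (algebraMap k (AlgebraicClosure k))) ^ rot p F₀ m 0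
  have hχR : ∀ u, χR u = S.w (algebraMap k (AlgebraicClosure k)) u ^ rot p F₀ m 0 := by
    intro u
    show ((S.wc (algebraMap k (AlgebraicClosure k))) ^ rot p F₀ m 0) u = _
    rw [MulChar.pow_apply' _ hM0.ne']
    rfl
  have hχ' : ∀ u, χ u = ι (χR u) := fun u => by rw [hχι, hχR]
  set Q : R := (p : R) ^ F₀ with hQ
  have hQ0 : Q ≠ 0 := pow_ne_zero _ (Nat.cast_ne_zero.2 hp0.ne')
  have hιQ : ι Q = (Fintype.card k : ℂ) := by
    rw [hQ, map_pow, map_natCast, hkF, Nat.cast_pow]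
  have hroot := fun P : MI k => exists_root_MI (K := AlgebraicClosure k) P
  choose ρ hρ using hroot
  set fc : Fin (a + 1) → k[X] := fun b : Fin (a + 1) => f.coeff b with hfcd
  have hfc : ∀ b : ℕ, (f.coeff b).natDegree ≤ 0 * (a - b) + Pool.Agent.K4H5.BD.degT f := by
    intro b
    rw [zero_mul, zero_add]
    exact Pool.Agent.K4H5.BD.natDegree_le_degT f b
  set Δ1 := Del1 (AlgebraicClosure k) p F₀ (f.coeff 0) m with hΔ1d
  have hΔ1 : Δ1 ≠ 0 := charpolyRev_ne _
  have hres : ∀ r : R, ResAt φ (ι r) (S.π r) := fun r =>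
    (resAt_iff hι hπj hιj hfrac r _).2 rfl
  -- the base
  have i7 : IsGaloisGroup (k[X] ≃ₐ[k[X]] k[X]) k[X] k[X] := galois_self _
  have i9 : Subsingleton (k[X] ≃ₐ[k[X]] k[X]) := subsingleton_self _
  have i8 : Finite (k[X] ≃ₐ[k[X]] k[X]) := Finite.of_subsingleton
  have hG1 : Nat.card (k[X] ≃ₐ[k[X]] k[X]) = 1 :=
    Nat.card_eq_one_iff_unique.2 ⟨i9, inferInstance⟩
  have hdiv : divs (1 : k[X]) = ∅ := by
    rw [Finset.eq_empty_iff_forall_notMem]
    intro P hP
    rw [mem_divs one_ne_zero] at hP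
    exact P.2.2.not_isUnit (isUnit_of_dvd_one hP)
  have hspl : ∀ D₂ : k[X], ∃ Δ : (AlgebraicClosure k)[X], Δ.coeff 0 = 1 ∧
      ((¬ ∃ w : Fin r → k[X], w ≠ 0 ∧ ∀ i, cart q (D₂ * ∑ j, minor B₁ b mm i j * w j) =
        (w i).map (iterateFrobenius k p f₀)) → Δ.eval 1 ≠ 0) ∧
      ∀ N₀ : PowerSeries R, LB k[X] χR (cur (D₂ * B₁) b mm) = PowerSeries.rescale Q N₀ →
        PowerSeries.map S.π N₀ = (Δ : PowerSeries (AlgebraicClosure k)) := by
    intro D₂
    obtain ⟨ψ⟩ := exists_const k p f₀ s hf₀ (by rw [hk, hq])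
    let k₀ := GaloisField p f₀
    let _ : Algebra k₀ k := ψ.toAlgebra
    have hfin : Finite k₀ := Nat.finite_of_card_ne_zero (by
      rw [GaloisField.card p f₀ hf₀.ne']
      exact pow_ne_zero _ hp.out.ne_zero)
    let _ : Fintype k₀ := Fintype.ofFinite k₀
    have hk₀' : Nat.card k₀ = q := by
      rw [GaloisField.card p f₀ hf₀.ne', hq]
    have hk₀ : Fintype.card k₀ = q := by
      rw [← Nat.card_eq_fintype_card, hk₀']
    have hcp : CharP k₀ p := ψ.charP ψ.injective p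
    have hinv : ∀ i : ℕ, i < ∑ l, mm l → ((i : k₀) + 1) ≠ 0 := by
      intro i hi h
      have h1 : ((i + 1 : ℕ) : k₀) = 0 := by rw [Nat.cast_succ, h]
      rw [CharP.cast_eq_zero_iff k₀ p] at h1
      have h2 := Nat.le_of_dvd (Nat.succ_pos i) h1
      omega
    let χ₀ : MulChar k₀ R := S.wc ((algebraMap k (AlgebraicClosure k)).comp (algebraMap k₀ k))
    have hχ₀ : ∀ u : k₀, S.π (χ₀ u) = algebraMap k (AlgebraicClosure k) (algebraMap k₀ k u) :=
      fun u => S.hτ _
    have hnorm : ∀ u : k, χR u = χ₀ (Algebra.norm k₀ u) := by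
      intro u
      have h1 := FiniteField.algebraMap_norm_eq_pow (K := k₀) (K' := k) (x := u)
      rw [hk₀', hMn] at h1
      rw [hχR]
      show S.τ (algebraMap k (AlgebraicClosure k) u) ^ rot p F₀ m 0 =
        S.τ (algebraMap k (AlgebraicClosure k) (algebraMap k₀ k (Algebra.norm k₀ u)))
      rw [h1, map_pow, map_pow]
    set E := D₂ * B₁ with hE
    set d := ∑ i, (b i).natDegree with hd
    have hb : ∀ i, (b i).natDegree ≤ d := fun i =>
      Finset.single_le_sum (f := fun i => (b i).natDegree) (fun _ _ => Nat.zero_le _)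
        (Finset.mem_univ i)
    set e := E.natDegree + d * ∑ i, mm i with he
    have hne : e < (q - 1) * (e + 1) := by
      have h1 : 1 * (e + 1) ≤ (q - 1) * (e + 1) := Nat.mul_le_mul_right _ (by omega)
      omega
    obtain ⟨L, Δ, h1, h2, h3⟩ := global_feR (k₀ := k₀) (k := k) (K := AlgebraicClosure k)
      S.π S.hu χ₀ hχ₀ (k[X] ≃ₐ[k[X]] k[X]) (O := k[X]) (g := 0) hq hf₀ hk₀ hs hk h5
      (by rw [hG1, pow_zero]) E b hb hmm hmq hinv 0 hne 1 one_ne_zero
      (fun 𝔪 _ => Subsingleton.elim _ _)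
    have hQs : ((q : R) ^ s) = Q := by
      rw [hQ, hq, Nat.cast_pow, ← pow_mul]
    rw [hQs] at h1
    have hLO : LB k[X] χR (cur E b mm) = LO k[X] χ₀ E b mm :=
      LB_cur (k[X] ≃ₐ[k[X]] k[X]) hnorm E b mm
    have hLOc : PowerSeries.constantCoeff (LO k[X] χ₀ E b mm) = 1 := by
      rw [← hLO]
      exact constantCoeff_LB (k[X] ≃ₐ[k[X]] k[X]) χR (cur E b mm)
    have hLc : PowerSeries.constantCoeff L = 1 := by
      have h4 := congrArg PowerSeries.constantCoeff h1
      rw [map_mul, map_one, hLOc, one_mul, ← PowerSeries.coeff_zero_eq_constantCoeff_apply,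
        PowerSeries.coeff_rescale, pow_zero, one_mul,
        PowerSeries.coeff_zero_eq_constantCoeff_apply] at h4
      exact h4
    refine ⟨Δ, ?_, ?_, ?_⟩
    · have h4 := congrArg PowerSeries.constantCoeff h2
      rw [map_mul, map_one, ← PowerSeries.coeff_zero_eq_constantCoeff_apply,
        PowerSeries.coeff_map, PowerSeries.coeff_zero_eq_constantCoeff_apply, hLc, map_one,
        one_mul, ← PowerSeries.coeff_zero_eq_constantCoeff_apply, Polynomial.coeff_coe] at h4
      exact h4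
    · intro hD h4
      rcases h3 h4 with h6 | ⟨𝔪, _, _, hI, _⟩
      · apply hD
        obtain ⟨w, hw0, hw⟩ := fixed_of_detS hq (by omega) hs hk e (MG E b mm 0)
          (fun i j => (natDegree_MG E hb hmm 0 i j).trans_lt hne) h6
        have hw' : ∀ i, cart q (∑ j, E * phi k b mm 0 i j * w j) =
            (w i).map (iterateFrobenius k p f₀) := hw
        have hw00 : w 0 = 0 := by
          have h8 : ∑ j, E * phi k b mm 0 0 j * w j = 0 := by
            refine Finset.sum_eq_zero fun j _ => ?_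
            rw [phi_row k _ _ rfl, mul_zero, zero_mul]
          have h9 := hw' 0
          rw [h8, cart_zero (by omega)] at h9
          exact (Polynomial.map_eq_zero _).1 h9.symm
        refine ⟨fun i => w i.succ, ?_, ?_⟩
        · intro h9
          apply hw0
          funext i
          refine Fin.cases hw00 (fun i => ?_) i
          exact congrFun h9 i
        · intro i
          show cart q (D₂ * ∑ j, minor B₁ b mm i j * w j.succ) = _
          refine Eq.trans ?_ (hw' i.succ)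
          have h10 : D₂ * ∑ j : Fin r, minor B₁ b mm i j * w j.succ =
              ∑ j : Fin (r + 1), E * phi k b mm 0 i.succ j * w j := by
            rw [Fin.sum_univ_succ, hw00, mul_zero, zero_add, Finset.mul_sum]
            refine Finset.sum_congr rfl fun j _ => ?_
            rw [hE]
            unfold minor
            rw [Matrix.of_apply]
            ring
          rw [h10]
      · exact hI (Subsingleton.elim _ _)
    · intro N₀ hN₀
      have h4 : N₀ * L = 1 := by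
        have h6 : PowerSeries.rescale Q (N₀ * L) = PowerSeries.rescale Q 1 := by
          rw [map_mul, map_one, ← hN₀, hLO, h1]
        ext n
        have h7 := congrArg (PowerSeries.coeff n) h6
        rw [PowerSeries.coeff_rescale, PowerSeries.coeff_rescale] at h7
        exact mul_left_cancel₀ (pow_ne_zero _ hQ0) h7
      have h6 := congrArg (PowerSeries.map S.π) h4
      rw [map_mul, map_one] at h6
      linear_combination (Δ : PowerSeries (AlgebraicClosure k)) * h6 - PowerSeries.map S.π N₀ * h2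
  obtain ⟨Δ₀, hΔ₀c, -, hΔ₀⟩ := hspl D₁
  obtain ⟨N₀, hN₀, hN₀'⟩ := glob_kd S hF₀ hkF hm har ha hM0 χR hχR (k[X] ≃ₐ[k[X]] k[X])
    (O := k[X]) (g := 0) (by rw [hG1, pow_zero]) hf hfc ρ hρ 1 one_ne_zero
    (fun 𝔪 _ => Subsingleton.elim _ _)
  rw [hdiv, Finset.prod_empty, Finset.prod_empty, hG1, pow_one, pow_one, one_mul, one_mul,
    hΔ₀ N₀ hN₀, ← Polynomial.coe_mul] at hN₀'
  have hDel := Polynomial.coe_injective _ hN₀'
  have hΔ₀u : ∀ u : AlgebraicClosure k, u ^ e₁ = 1 → Δ₀.eval u⁻¹ ≠ 0 := by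
    intro u hu
    obtain ⟨c, hcT, hc⟩ := hT u hu
    obtain ⟨Δ₂, -, h2, h3⟩ := hspl (C c * D₁)
    have h4 := h2 (hD c hcT)
    have h6 : cur (C c * D₁ * B₁) b mm = C (C c) * f := by
      rw [hfd]
      unfold cur
      rw [mul_assoc, C_mul, mul_assoc]
    have h7 : LB k[X] χR (cur (C c * D₁ * B₁) b mm) =
        PowerSeries.rescale Q (PowerSeries.rescale (χR c) N₀) := by
      rw [h6, LB_C_mul (k[X] ≃ₐ[k[X]] k[X]), hN₀, PowerSeries.rescale_rescale,
        PowerSeries.rescale_rescale, mul_comm]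
    have h8 := h3 _ h7
    have h9 : PowerSeries.map S.π (PowerSeries.rescale (χR c) N₀) =
        PowerSeries.rescale (S.π (χR c)) (PowerSeries.map S.π N₀) := by
      ext n
      rw [PowerSeries.coeff_map, PowerSeries.coeff_rescale, PowerSeries.coeff_rescale,
        PowerSeries.coeff_map, map_mul, map_pow]
    have h10 : S.π (χR c) = u⁻¹ := by
      rw [hχR, map_pow, S.π_w, hc]
    rw [h9, h10, hΔ₀ N₀ hN₀] at h8
    have h11 : Δ₀.comp (C u⁻¹ * X) = Δ₂ := by
      apply Polynomial.coe_injective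
      rw [← h8]
      ext n
      rw [Polynomial.coeff_coe, comp_C_mul_X_coeff, PowerSeries.coeff_rescale,
        Polynomial.coeff_coe, mul_comm]
    rw [← h11, eval_comp, eval_mul, eval_C, eval_X, mul_one] at h4
    exact h4
  have hΔ₀1 : Δ₀.eval 1 ≠ 0 := by
    have := hΔ₀u 1 (one_pow _)
    rwa [inv_one] at this
  obtain ⟨N, hN, hN'⟩ := glob_kd S hF₀ hkF hm har ha hM0 χR hχR G hG hf hfc ρ hρ B hB hun
  have hNc : PowerSeries.constantCoeff N = 1 := by
    have h1 := constantCoeff_LB (O := O) G χR f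
    rw [hN, ← PowerSeries.coeff_zero_eq_constantCoeff_apply, PowerSeries.coeff_rescale, pow_zero,
      one_mul, PowerSeries.coeff_zero_eq_constantCoeff_apply] at h1
    exact h1
  have hmap := map_LB (O := O) G ι χR χ hχ' f
  rw [hN, hH] at hmap
  obtain ⟨V, hVc, hV1, hVl, v, hv, hv'⟩ := lam_eq hι hπj hιj hfrac hint hQ0 H N hNc hmap.symm
  rw [hιQ] at hVl hv
  have hV : V * ((∏ P ∈ divs B, dl p F₀ (G1 (AlgebraicClosure k) p (f.coeff 0) m) ρ P ^
          defect O G P) * Δ1 ^ Nat.card G) =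
        (∏ P ∈ divs B, dl p F₀ (GM (AlgebraicClosure k) p fc m) ρ P ^ defect O G P) *
          (Δ₀ * Δ1) ^ Nat.card G := by
    apply Polynomial.coe_injective
    rw [Polynomial.coe_mul, hV1, hN', ← hDel]
  have hΔ₀0 : Δ₀ ≠ 0 := ne_of_coeff hΔ₀c
  have hW : ∀ P : MI k, ∃ W : (AlgebraicClosure k)[X], W.coeff 0 = 1 ∧
      (P ∈ divs B → defect O G P ≠ 0 →
        W * dl p F₀ (G1 (AlgebraicClosure k) p (f.coeff 0) m) ρ P =
          dl p F₀ (GM (AlgebraicClosure k) p fc m) ρ P ∧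
        (∀ u : AlgebraicClosure k, u ≠ 0 → W.rootMultiplicity u⁻¹ =
          lam φ (Fintype.card k : ℂ) u (Hloc P)) ∧
        ∃ v : R, ι v = (Hloc P).eval (Fintype.card k : ℂ)⁻¹ ∧ S.π v = W.eval 1) := by
    intro P
    by_cases hP : P ∈ divs B ∧ defect O G P ≠ 0
    · obtain ⟨N, hNc, hN, hN'⟩ := local_kd S hF₀ hkF hm har ha hM0 χR hχR f hf ρ hρ P
      have hNi := inv_series hNc
      set N' := PowerSeries.invOfUnit N 1 with hN'd
      have hN'c : PowerSeries.constantCoeff N' = 1 := by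
        have h2 := congrArg PowerSeries.constantCoeff hNi
        rwa [map_mul, hNc, one_mul, map_one] at h2
      have h1 := hloc P hP.1 hP.2
      rw [← map_LP ι χR χ hχ', hN] at h1
      have h2 : PowerSeries.map ι (PowerSeries.rescale Q N) *
          PowerSeries.map ι (PowerSeries.rescale Q N') = 1 := by
        rw [← map_mul, ← map_mul, hNi, map_one, map_one]
      have h3 : ((Hloc P : ℂ[X]) : PowerSeries ℂ) =
          PowerSeries.map ι (PowerSeries.rescale Q N') := by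
        linear_combination PowerSeries.map ι (PowerSeries.rescale Q N') * h1 -
          ((Hloc P : ℂ[X]) : PowerSeries ℂ) * h2
      obtain ⟨W, hW0, hW1, hW2, w, hw1, hw2⟩ := lam_eq hι hπj hιj hfrac hint hQ0 (Hloc P) N'
        hN'c h3
      rw [hιQ] at hW2 hw1
      refine ⟨W, hW0, fun _ _ => ⟨?_, hW2, w, hw1, hw2⟩⟩
      apply Polynomial.coe_injective
      rw [Polynomial.coe_mul, hW1, ← hN']
      have h4 := congrArg (PowerSeries.map S.π) hNi
      rw [map_mul, map_one] at h4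
      linear_combination ((dl p F₀ (GM (AlgebraicClosure k) p fc m) ρ P :
        (AlgebraicClosure k)[X]) : PowerSeries (AlgebraicClosure k)) * h4
    · exact ⟨1, by simp, fun h1 h2 => absurd ⟨h1, h2⟩ hP⟩
  choose W hWc hW using hW
  have hW0 : ∀ P, W P ≠ 0 := fun P => ne_of_coeff (hWc P)
  have hfac : V = (∏ P ∈ divs B, W P ^ defect O G P) * Δ₀ ^ Nat.card G := by
    have h1 : (∏ P ∈ divs B, dl p F₀ (G1 (AlgebraicClosure k) p (f.coeff 0) m) ρ P ^
        defect O G P) * Δ1 ^ Nat.card G ≠ 0 :=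
      mul_ne_zero (Finset.prod_ne_zero_iff.2 fun P _ => pow_ne_zero _ (dl_ne _ ρ P))
        (pow_ne_zero _ hΔ1)
    apply mul_right_cancel₀ h1
    rw [hV]
    have h2 : (∏ P ∈ divs B, dl p F₀ (GM (AlgebraicClosure k) p fc m) ρ P ^ defect O G P) =
        (∏ P ∈ divs B, W P ^ defect O G P) *
          ∏ P ∈ divs B, dl p F₀ (G1 (AlgebraicClosure k) p (f.coeff 0) m) ρ P ^
            defect O G P := by
      rw [← Finset.prod_mul_distrib]
      refine Finset.prod_congr rfl fun P hP => ?_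
      by_cases h : defect O G P = 0
      · rw [h, pow_zero, pow_zero, pow_zero, one_mul]
      · rw [← (hW P hP h).1, mul_pow]
    rw [h2, mul_pow]
    ring
  constructor
  · intro u hu hu0
    have hmult0 : Δ₀.rootMultiplicity u⁻¹ = 0 := rootMultiplicity_eq_zero (hΔ₀u u hu)
    rw [← hVl u hu0, hfac, rootMult_prod_pow _ _ _ hW0 _ hΔ₀0, hmult0, mul_zero, zero_add]
    refine Finset.sum_congr rfl fun P hP => ?_
    by_cases h : defect O G P = 0
    · rw [h, zero_mul, zero_mul]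
    · rw [(hW P hP h).2.1 u hu0]
  · refine ⟨Δ₀.eval 1 ^ Nat.card G, fun P => (W P).eval 1, pow_ne_zero _ hΔ₀1, ?_, ?_⟩
    · intro P hP h
      obtain ⟨w, hw1, hw2⟩ := (hW P hP h).2.2
      show ResAt φ _ ((W P).eval 1)
      rw [← hw1, ← hw2]
      exact hres w
    · have h1 : V.eval 1 = (∏ P ∈ divs B, (W P).eval 1 ^ defect O G P) *
          Δ₀.eval 1 ^ Nat.card G := by
        rw [hfac, eval_mul, eval_prod, eval_pow]
        congr 1
        exact Finset.prod_congr rfl fun P _ => eval_pow _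
      rw [← h1, ← hv, ← hv']
      exact hres v

end Pool.Agent.K4H5.US
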