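import Pool.Agent.K4H5.US.Count

/-!
The leading matrix of the matrix `Φ` of a pencil whose sections are distinct at infinity.
-/

set_option autoImplicit false
set_option linter.unusedSectionVars false

open Polynomial Module

namespace Pool.Agent.K4H5.US

open Pool.Agent.Y709 Pool.Agent.Y709.Gen Pool.Agent.Y515.CntG Pool.Agent.Y709.Irr
open Pool.Agent.Y709.IrrS

section top

variable {k : Type} [Field k]

/-- `G` is the top part of `H` of the weighted degree `D` -/
def TP (d D : ℕ) (H : k[X][X]) (G : k[X]) : Prop :=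
  WB d D H ∧ (∀ e, d * e ≤ D → G.coeff e = (H.coeff e).coeff (D - d * e)) ∧
    ∀ e, D < d * e → G.coeff e = 0

theorem natDegree_of_wb {d D e : ℕ} {H : k[X][X]} (h : WB d D H) (he : d * e ≤ D) :
    (H.coeff e).natDegree ≤ D - d * e := by
  rcases h e with h1 | h1
  · rw [h1, natDegree_zero]
    exact Nat.zero_le _
  · omega

theorem coeff_of_wb {d D e : ℕ} {H : k[X][X]} (h : WB d D H) (he : D < d * e) :
    H.coeff e = 0 := by
  rcases h e with h1 | h1
  · exact h1
  · omega

theorem TP.mul {d D D' : ℕ} {H H' : k[X][X]} {G G' : k[X]} (h : TP d D H G) (h' : TP d D' H' G') :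
    TP d (D + D') (H * H') (G * G') := by
  refine ⟨h.1.mul h'.1, fun e he => ?_, fun e he => ?_⟩
  · rw [coeff_mul, coeff_mul, finsetSum_coeff]
    refine Finset.sum_congr rfl fun x hx => ?_
    rw [Finset.HasAntidiagonal.mem_antidiagonal] at hx
    have h3 : d * e = d * x.1 + d * x.2 := by rw [← hx, Nat.mul_add]
    by_cases h1 : d * x.1 ≤ D
    · by_cases h2 : d * x.2 ≤ D'
      · rw [h.2.1 _ h1, h'.2.1 _ h2]
        have h4 : D + D' - d * e = (D - d * x.1) + (D' - d * x.2) := by omega
        rw [h4, coeff_mul_add_eq_of_natDegree_le (natDegree_of_wb h.1 h1)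
          (natDegree_of_wb h'.1 h2)]
      · rw [h'.2.2 _ (by omega), coeff_of_wb h'.1 (by omega), mul_zero, mul_zero, coeff_zero]
    · rw [h.2.2 _ (by omega), coeff_of_wb h.1 (by omega), zero_mul, zero_mul, coeff_zero]
  · rw [coeff_mul]
    refine Finset.sum_eq_zero fun x hx => ?_
    rw [Finset.HasAntidiagonal.mem_antidiagonal] at hx
    have h3 : d * e = d * x.1 + d * x.2 := by rw [← hx, Nat.mul_add]
    by_cases h1 : d * x.1 ≤ D
    · rw [h'.2.2 _ (by omega), mul_zero]
    · rw [h.2.2 _ (by omega), zero_mul]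

theorem TP.one (d : ℕ) : TP d 0 (1 : k[X][X]) 1 := by
  refine ⟨WB.one d, fun e he => ?_, fun e he => ?_⟩
  · rw [coeff_one, coeff_one, Nat.zero_sub]
    split_ifs with h
    · rw [coeff_one_zero]
    · rw [coeff_zero]
  · rw [coeff_one, if_neg]
    rintro rfl
    omega

theorem TP.X_sub {d : ℕ} (hd : 0 < d) {b : k[X]} (hb : b.natDegree ≤ d) :
    TP d d (X - C b) (X - C (b.coeff d)) := by
  refine ⟨WB.X_sub hb, fun e he => ?_, fun e he => ?_⟩
  · rw [coeff_sub, coeff_sub, coeff_X, coeff_X, coeff_C, coeff_C, coeff_sub]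
    rcases e with _ | e
    · rw [if_neg one_ne_zero, if_neg one_ne_zero, if_pos rfl, if_pos rfl, coeff_zero, mul_zero,
        Nat.sub_zero]
    · rcases e with _ | e
      · rw [if_pos rfl, if_pos rfl, if_neg (by omega), if_neg (by omega), coeff_zero]
        simp
      · rw [if_neg (by omega), if_neg (by omega), if_neg (by omega), if_neg (by omega), coeff_zero]
  · rcases e with _ | e
    · omega
    · rcases e with _ | e
      · omega
      · rw [coeff_sub, coeff_X, coeff_C, if_neg (by omega), if_neg (by omega), sub_zero]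

theorem TP.pow {d D : ℕ} {H : k[X][X]} {G : k[X]} (h : TP d D H G) (n : ℕ) :
    TP d (D * n) (H ^ n) (G ^ n) := by
  induction n with
  | zero =>
    rw [pow_zero, pow_zero, mul_zero]
    exact TP.one d
  | succ n ih =>
    rw [pow_succ, pow_succ, Nat.mul_succ]
    exact ih.mul h

theorem TP.prod {d : ℕ} {κ : Type} (s : Finset κ) {D : κ → ℕ} {H : κ → k[X][X]} {G : κ → k[X]}
    (h : ∀ i, TP d (D i) (H i) (G i)) : TP d (∑ i ∈ s, D i) (∏ i ∈ s, H i) (∏ i ∈ s, G i) := by
  classical
  induction s using Finset.induction_on with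
  | empty =>
    rw [Finset.sum_empty, Finset.prod_empty, Finset.prod_empty]
    exact TP.one d
  | insert i s hi ih =>
    rw [Finset.sum_insert hi, Finset.prod_insert hi, Finset.prod_insert hi]
    exact (h i).mul ih

theorem TP.intg {d D : ℕ} {H : k[X][X]} {G : k[X]} (h : TP d D H G) :
    TP d (D + d) (intg k H) (intg k G) := by
  refine ⟨h.1.intg, fun e he => ?_, fun e he => ?_⟩
  · rcases e with _ | e
    · rw [coeff_intg_zero, coeff_intg_zero, coeff_zero]
    · rw [Nat.mul_succ] at he ⊢
      rw [coeff_intg_succ, coeff_intg_succ, h.2.1 e (by omega), algebraMap_eq, coeff_C_mul]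
      have h1 : D + d - (d * e + d) = D - d * e := by omega
      rw [h1]
      rfl
  · rcases e with _ | e
    · omega
    · rw [Nat.mul_succ] at he
      rw [coeff_intg_succ, h.2.2 e (by omega), mul_zero]

theorem TP.eval {d D : ℕ} {H : k[X][X]} {G : k[X]} (h : TP d D H G) {b : k[X]}
    (hb : b.natDegree ≤ d) : (H.eval b).coeff D = G.eval (b.coeff d) := by
  have h1 : ∀ n, max H.natDegree G.natDegree < n →
      (H.eval b).coeff D = G.eval (b.coeff d) := by
    intro n hn
    rw [eval_eq_sum_range' (lt_of_le_of_lt (le_max_left _ _) hn),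
      eval_eq_sum_range' (lt_of_le_of_lt (le_max_right _ _) hn), finsetSum_coeff]
    refine Finset.sum_congr rfl fun e _ => ?_
    by_cases he : d * e ≤ D
    · rw [h.2.1 e he]
      have h2 : (b ^ e).natDegree ≤ d * e := by
        refine natDegree_pow_le.trans ?_
        rw [mul_comm]
        exact Nat.mul_le_mul_right e hb
      have h3 : (H.coeff e * b ^ e).coeff D = (H.coeff e * b ^ e).coeff ((D - d * e) + d * e) := by
        rw [Nat.sub_add_cancel he]
      rw [h3, coeff_mul_add_eq_of_natDegree_le (natDegree_of_wb h.1 he) h2, mul_comm d e,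
        coeff_pow_of_natDegree_le hb]
    · rw [h.2.2 e (by omega), coeff_of_wb h.1 (by omega), zero_mul, zero_mul, coeff_zero]
  exact h1 _ (Nat.lt_succ_self _)

/-- the coefficients of the entries of `Φ` at the top degree -/
theorem coeff_phi {κ : Type} [Fintype κ] [DecidableEq κ] {d : ℕ} (hd : 0 < d) {b : κ → k[X]}
    (hb : ∀ i, (b i).natDegree ≤ d) {m : κ → ℕ} (hm : ∀ i, 0 < m i) (o i j : κ) :
    (phi k b m o i j).coeff (d * ∑ i, m i) = phi k (fun i => (b i).coeff d) m o i j := by
  have h1 : TP d (d * (m j - 1) + ∑ i ∈ Finset.univ.erase j, d * m i) (gj b m j)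
      (gj (fun i => (b i).coeff d) m j) :=
    ((TP.X_sub hd (hb j)).pow _).mul (TP.prod _ fun i => (TP.X_sub hd (hb i)).pow _)
  have h2 : d * (m j - 1) + ∑ i ∈ Finset.univ.erase j, d * m i + d = d * ∑ i, m i := by
    rw [← Finset.mul_sum, ← Finset.add_sum_erase Finset.univ m (Finset.mem_univ j)]
    obtain ⟨a, ha⟩ : ∃ a, m j = a + 1 := ⟨m j - 1, by have := hm j; omega⟩
    rw [ha, Nat.add_sub_cancel]
    ring
  have h3 := h1.intg
  rw [h2] at h3
  unfold phi
  rw [Matrix.of_apply, Matrix.of_apply, coeff_neg, ← C_eq_natCast, coeff_C_mul, coeff_sub,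
    h3.eval (hb i), h3.eval (hb o)]

/-- **the leading matrix of `Φ`** -/
theorem lead_minor [Fintype k] {r p a q d : ℕ} [hp : Fact p.Prime] [CharP k p] (hq : q = p ^ a) (ha : 0 < a)
    (hd : 0 < d) {β : Fin (r + 1) → k[X]} (hβ : ∀ i, (β i).natDegree ≤ d)
    (hβd : ∀ i j, i ≠ j → (β i - β j).natDegree = d)
    {m : Fin (r + 1) → ℕ} (hm : ∀ i, 0 < m i) (hmq : ∀ i, m i < q)
    (hinv : ∀ i : ℕ, i < ∑ l, m l → ((i : k) + 1) ≠ 0) :
    (Matrix.of fun i j => (minor 1 β m i j).coeff (d * ∑ l, m l)).det ≠ 0 := by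
  let b : Fin (r + 1) → k[X] := fun i => C ((β i).coeff d)
  have hb : Function.Injective b := by
    intro i j hij
    by_contra hne
    have h1 : (β i).coeff d = (β j).coeff d := C_injective hij
    have h2 := hβd i j hne
    have h3 : (β i - β j) ≠ 0 := by
      intro h0
      rw [h0, natDegree_zero] at h2
      omega
    apply leadingCoeff_ne_zero.2 h3
    rw [leadingCoeff, h2, coeff_sub, h1, sub_self]
  have h1 := det_minor (k := k) hq ha (one_ne_zero (α := k[X])) hb hm hmq hinv
  have h2 : minor 1 b m = (Matrix.of fun i j => (minor 1 β m i j).coeff (d * ∑ l, m l)).map C := by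
    refine Matrix.ext fun i j => ?_
    rw [Matrix.map_apply, Matrix.of_apply]
    unfold minor
    rw [Matrix.of_apply, Matrix.of_apply, one_mul, one_mul, coeff_phi hd hβ hm,
      map_phi k (C : k →+* k[X]) (fun a => rfl)]
  intro h0
  apply h1
  have h3 : ((Matrix.of fun i j => (minor 1 β m i j).coeff (d * ∑ l, m l)).map C).det =
      C (Matrix.of fun i j => (minor 1 β m i j).coeff (d * ∑ l, m l)).det :=
    (RingHom.map_det (C : k →+* k[X]) _).symm
  rw [h2, h3, h0, C_0]

end top

end Pool.Agent.K4H5.US
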