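import Pool.Agent.Y709.Irr.Sq

/-!
Statement for the number of tuples of polynomials without simple collisions.
-/

set_option autoImplicit false

open Polynomial

namespace Pool.Agent.K4H5.US

open Pool.Agent.Y709.Irr

/-- all but a proportion `(r + 1) ^ 4 / #k` of the `(r + 1)`-tuples of polynomials of degree at most `d`
have simple collisions -/
def SieveStm : Prop :=
  ∀ (k : Type) [Field k] [Fintype k] (r d : ℕ), 0 < d →
    Fintype.card k * {β : Fin (r + 1) → k[X] | (∀ i, (β i).natDegree ≤ d) ∧ ¬ Simple β d}.ncard ≤
      (r + 1) ^ 4 * Fintype.card k ^ ((r + 1) * (d + 1))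

end Pool.Agent.K4H5.US
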