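import Mathlib
import Pool.Agent.K4H5.US.SieveSpec

/-!
# The number of tuples of polynomials without simple collisions
-/

set_option autoImplicit false

open Polynomial

namespace Pool.Agent.K4H5.US

open Pool.Agent.Y709.Irr

namespace Sv

/-- a subgroup which is the kernel of a homomorphism with large range is small -/
theorem card_ker_le {V W U : Type*} [AddCommGroup V] [AddCommGroup W] [Finite V]
    (φ : V →+ W) (g : U → W) (hg : Function.Injective g) (hr : ∀ u, ∃ v, φ v = g u) :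
    Nat.card φ.ker * Nat.card U ≤ Nat.card V := by
  have h1 : Nat.card φ.ker * φ.ker.index = Nat.card V := AddSubgroup.card_mul_index _
  rw [AddSubgroup.index_ker] at h1
  rw [← h1]
  refine Nat.mul_le_mul_left _ ?_
  have hfin : Finite φ.range := Finite.of_surjective φ.rangeRestrict φ.rangeRestrict_surjective
  refine Nat.card_le_card_of_injective (fun u => (⟨g u, hr u⟩ : φ.range)) ?_
  intro a b hab
  exact hg (congrArg Subtype.val hab)

variable (k : Type) [Field k] [Fintype k]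

theorem card_degreeLT (n : ℕ) : Nat.card (degreeLT k n) = Fintype.card k ^ n := by
  rw [Nat.card_congr (degreeLTEquiv k n).toEquiv, Nat.card_fun, Nat.card_eq_fintype_card,
    Nat.card_eq_fintype_card, Fintype.card_fin]

instance (n : ℕ) : Finite (degreeLT k n) := Finite.of_equiv _ (degreeLTEquiv k n).toEquiv.symm

/-- the space of tuples -/
abbrev V (r d : ℕ) : Type := Fin (r + 1) → degreeLT k (d + 1)

theorem card_V (r d : ℕ) : Nat.card (V k r d) = Fintype.card k ^ ((r + 1) * (d + 1)) := by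
  rw [Nat.card_fun, card_degreeLT, ← pow_mul, Nat.card_eq_fintype_card, Fintype.card_fin, mul_comm]

variable {k} {r d : ℕ}

/-- evaluation of a difference -/
noncomputable def df (i j : Fin (r + 1)) : V k r d →+ k[X] where
  toFun := fun β => (β i : k[X]) - (β j : k[X])
  map_zero' := by simp
  map_add' := fun a b => by simp; ring

theorem df_apply (i j : Fin (r + 1)) (β : V k r d) : df i j β = (β i : k[X]) - (β j : k[X]) := rfl

/-- tuples with equal leading coefficients -/
theorem cardA {i j : Fin (r + 1)} (hij : i ≠ j) :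
    Nat.card (((lcoeff k d).toAddMonoidHom.comp (df (k := k) (r := r) (d := d) i j)).ker) *
      Fintype.card k ≤ Fintype.card k ^ ((r + 1) * (d + 1)) := by
  classical
  have h := card_ker_le ((lcoeff k d).toAddMonoidHom.comp (df (k := k) (r := r) (d := d) i j))
    (fun u : k => u) (fun _ _ h => h) (fun u => by
      refine ⟨Pi.single i ⟨C u * X ^ d, ?_⟩, ?_⟩
      · rw [mem_degreeLT]
        exact lt_of_le_of_lt (degree_C_mul_X_pow_le d u) (by exact_mod_cast Nat.lt_succ_self d)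
      · show coeff (df i j _) d = u
        rw [df_apply, Pi.single_eq_same, Pi.single_eq_of_ne hij.symm]
        simp)
  rwa [Nat.card_eq_fintype_card (α := k), card_V] at h

theorem mod_self {P f : k[X]} (hP : P.Monic) (hf : f.degree < P.degree) : f %ₘ P = f :=
  (modByMonic_eq_self_iff hP).2 hf

/-- tuples with a double factor of a difference -/
theorem cardB {i j : Fin (r + 1)} (hij : i ≠ j) {P : k[X]} {e : ℕ} (hP : P.Monic)
    (he : P.natDegree = e) (hed : e ≤ d + 1) :
    Nat.card (((modByMonicHom P).toAddMonoidHom.comp (df (k := k) (r := r) (d := d) i j)).ker) *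
      Fintype.card k ^ e ≤ Fintype.card k ^ ((r + 1) * (d + 1)) := by
  classical
  have hdeg : P.degree = e := by rw [degree_eq_natDegree hP.ne_zero, he]
  have h := card_ker_le ((modByMonicHom P).toAddMonoidHom.comp (df (k := k) (r := r) (d := d) i j))
    (fun u : degreeLT k e => (u : k[X])) Subtype.val_injective (fun u => by
      have hu := mem_degreeLT.1 u.2
      refine ⟨Pi.single i ⟨(u : k[X]), ?_⟩, ?_⟩
      · rw [mem_degreeLT]
        exact lt_of_lt_of_le hu (by exact_mod_cast hed)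
      · show (df i j _) %ₘ P = _
        rw [df_apply, Pi.single_eq_same, Pi.single_eq_of_ne hij.symm]
        simp only [ZeroMemClass.coe_zero, sub_zero]
        exact mod_self hP (by rw [hdeg]; exact hu))
  rwa [card_degreeLT, card_V] at h

/-- two congruences -/
noncomputable def two (i j a b : Fin (r + 1)) (P : k[X]) : V k r d →+ k[X] × k[X] :=
  ((modByMonicHom P).toAddMonoidHom.comp (df (k := k) (r := r) (d := d) i j)).prod
    ((modByMonicHom P).toAddMonoidHom.comp (df (k := k) (r := r) (d := d) a b))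

theorem two_apply (i j a b : Fin (r + 1)) (P : k[X]) (β : V k r d) :
    two i j a b P β = (((β i : k[X]) - (β j : k[X])) %ₘ P, ((β a : k[X]) - (β b : k[X])) %ₘ P) :=
  rfl

theorem neg_mod {P f : k[X]} (hP : P.Monic) (hf : f.degree < P.degree) : (-f) %ₘ P = -f :=
  mod_self hP (by rwa [degree_neg])

theorem cardC {i j a b : Fin (r + 1)} (hij : i < j) (hab : a < b) (hne : (i, j) ≠ (a, b))
    {P : k[X]} {e : ℕ} (hP : P.Monic) (he : P.natDegree = e) (hed : e ≤ d + 1) :
    Nat.card (two (k := k) (r := r) (d := d) i j a b P).ker * Fintype.card k ^ (2 * e) ≤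
      Fintype.card k ^ ((r + 1) * (d + 1)) := by
  classical
  have hdeg : P.degree = e := by rw [degree_eq_natDegree hP.ne_zero, he]
  have h := card_ker_le (two (k := k) (r := r) (d := d) i j a b P)
    (fun u : degreeLT k e × degreeLT k e => ((u.1 : k[X]), (u.2 : k[X])))
    (fun u v huv => by
      have h1 := congrArg Prod.fst huv
      have h2 := congrArg Prod.snd huv
      exact Prod.ext (Subtype.ext h1) (Subtype.ext h2)) (fun u => by
      obtain ⟨⟨u, hu0⟩, ⟨v, hv0⟩⟩ := u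
      have hu := mem_degreeLT.1 hu0
      have hv := mem_degreeLT.1 hv0
      have hu' : u.degree < P.degree := by rw [hdeg]; exact hu
      have hv' : v.degree < P.degree := by rw [hdeg]; exact hv
      have hle : degreeLT k e ≤ degreeLT k (d + 1) := degreeLT_mono hed
      -- an index of the first pair outside the second, and conversely
      have hx : (i ≠ a ∧ i ≠ b) ∨ (j ≠ a ∧ j ≠ b) := by
        by_contra hcon
        push Not at hcon
        obtain ⟨h1, h2⟩ := hcon
        apply hne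
        by_cases hia : i = a
        · by_cases hja : j = a
          · omega
          · rw [hia, h2 hja]
        · have hib := h1 hia
          by_cases hja : j = a
          · omega
          · have := h2 hja; omega
      have hy : (a ≠ i ∧ a ≠ j) ∨ (b ≠ i ∧ b ≠ j) := by
        by_contra hcon
        push Not at hcon
        obtain ⟨h1, h2⟩ := hcon
        apply hne
        by_cases hia : a = i
        · by_cases hja : b = i
          · omega
          · rw [hia, h2 hja]
        · have hib := h1 hia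
          by_cases hja : b = i
          · omega
          · have := h2 hja; omega
      rcases hx with hx | hx <;> rcases hy with hy | hy
      · refine ⟨Pi.single i ⟨u, hle hu0⟩ + Pi.single a ⟨v, hle hv0⟩, ?_⟩
        rw [two_apply]
        simp only [Pi.add_apply, Pi.single_eq_same, Pi.single_eq_of_ne hij.ne',
          Pi.single_eq_of_ne hx.1, Pi.single_eq_of_ne hx.1.symm, Pi.single_eq_of_ne hy.2.symm,
          Pi.single_eq_of_ne hab.ne', Pi.single_eq_of_ne hx.2.symm, add_zero, zero_add,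
          ZeroMemClass.coe_zero, sub_zero]
        rw [mod_self hP hu', mod_self hP hv']
      · refine ⟨Pi.single i ⟨u, hle hu0⟩ + Pi.single b (-⟨v, hle hv0⟩), ?_⟩
        rw [two_apply]
        simp only [Pi.add_apply, Pi.single_eq_same, Pi.single_eq_of_ne hij.ne',
          Pi.single_eq_of_ne hx.2, Pi.single_eq_of_ne hy.2.symm, Pi.single_eq_of_ne hx.1.symm,
          Pi.single_eq_of_ne hx.2.symm, Pi.single_eq_of_ne hab.ne, add_zero, zero_add,
          ZeroMemClass.coe_zero, sub_zero, Submodule.coe_neg, zero_sub, neg_neg]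
        rw [mod_self hP hu', mod_self hP hv']
      · refine ⟨Pi.single j (-⟨u, hle hu0⟩) + Pi.single a ⟨v, hle hv0⟩, ?_⟩
        rw [two_apply]
        simp only [Pi.add_apply, Pi.single_eq_same, Pi.single_eq_of_ne hij.ne,
          Pi.single_eq_of_ne hx.1, Pi.single_eq_of_ne hy.1.symm, Pi.single_eq_of_ne hx.1.symm,
          Pi.single_eq_of_ne hx.2.symm, Pi.single_eq_of_ne hab.ne', add_zero, zero_add,
          ZeroMemClass.coe_zero, sub_zero, Submodule.coe_neg, zero_sub, neg_neg]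
        rw [mod_self hP hu', mod_self hP hv']
      · refine ⟨Pi.single j (-⟨u, hle hu0⟩) + Pi.single b (-⟨v, hle hv0⟩), ?_⟩
        rw [two_apply]
        simp only [Pi.add_apply, Pi.single_eq_same, Pi.single_eq_of_ne hij.ne,
          Pi.single_eq_of_ne hx.2, Pi.single_eq_of_ne hy.1.symm, Pi.single_eq_of_ne hx.1.symm,
          Pi.single_eq_of_ne hx.2.symm, Pi.single_eq_of_ne hab.ne, add_zero, zero_add,
          ZeroMemClass.coe_zero, sub_zero, Submodule.coe_neg, zero_sub, neg_neg]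
        rw [mod_self hP hu', mod_self hP hv'])
  rwa [Nat.card_prod, card_degreeLT, card_V, ← pow_add, ← two_mul] at h

/-- monic polynomials of degree `e` -/
noncomputable def Mon (k : Type) [Field k] [Fintype k] (e : ℕ) : Finset k[X] := by
  classical
  haveI : Fintype (degreeLT k e) := Fintype.ofFinite _
  exact (Finset.univ : Finset (degreeLT k e)).image fun g : degreeLT k e => X ^ e + (g : k[X])

theorem card_Mon (e : ℕ) : (Mon k e).card ≤ Fintype.card k ^ e := by
  classical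
  let _ : Fintype (degreeLT k e) := Fintype.ofFinite _
  unfold Mon
  refine Finset.card_image_le.trans (le_of_eq ?_)
  rw [Finset.card_univ, ← Nat.card_eq_fintype_card, card_degreeLT]

theorem mem_Mon {P : k[X]} {e : ℕ} : P ∈ Mon k e ↔ P.Monic ∧ P.natDegree = e := by
  classical
  unfold Mon
  simp only [Finset.mem_image, Finset.mem_univ, true_and]
  constructor
  · rintro ⟨g, rfl⟩
    have hg := mem_degreeLT.1 g.2
    exact ⟨monic_X_pow_add hg, natDegree_eq_of_degree_eq_some (by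
      rw [degree_add_eq_left_of_degree_lt (by rwa [degree_X_pow]), degree_X_pow])⟩
  · rintro ⟨hP, hd⟩
    refine ⟨⟨P - X ^ e, ?_⟩, by simp⟩
    rw [mem_degreeLT]
    have h1 := degree_sub_lt_left (p := P) (q := X ^ e) (by
      rw [degree_X_pow, degree_eq_natDegree hP.ne_zero, hd]) hP.ne_zero (by
      rw [hP.leadingCoeff, leadingCoeff_X_pow])
    rwa [degree_eq_natDegree hP.ne_zero, hd] at h1

/-- the increasing pairs -/
def pairs (r : ℕ) : Finset (Fin (r + 1) × Fin (r + 1)) := Finset.univ.filter fun p => p.1 < p.2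

theorem mem_pairs {r : ℕ} {p : Fin (r + 1) × Fin (r + 1)} : p ∈ pairs r ↔ p.1 < p.2 := by
  simp [pairs]

theorem card_pairs (r : ℕ) : 2 * (pairs r).card ≤ (r + 1) * r := by
  classical
  have h1 : Disjoint (pairs r) ((pairs r).image Prod.swap) := by
    rw [Finset.disjoint_left]
    intro p hp hp'
    rw [Finset.mem_image] at hp'
    obtain ⟨q, hq, rfl⟩ := hp'
    rw [mem_pairs] at hp hq
    exact absurd hq (not_lt.2 hp.le)
  have h2 : (pairs r) ∪ ((pairs r).image Prod.swap) ⊆ (Finset.univ : Finset (Fin (r + 1))).offDiag := by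
    intro p hp
    rw [Finset.mem_union, Finset.mem_image] at hp
    rw [Finset.mem_offDiag]
    refine ⟨Finset.mem_univ _, Finset.mem_univ _, ?_⟩
    rcases hp with hp | ⟨q, hq, rfl⟩
    · exact (mem_pairs.1 hp).ne
    · exact (mem_pairs.1 hq).ne'
  have h3 := Finset.card_le_card h2
  rw [Finset.card_union_of_disjoint h1, Finset.card_image_of_injective _ Prod.swap_injective,
    Finset.offDiag_card, Finset.card_univ, Fintype.card_fin] at h3
  have h4 : (r + 1) * (r + 1) - (r + 1) = (r + 1) * r := by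
    rw [← Nat.mul_sub_one]; simp
  omega

/-- the monic polynomial attached to a nonunit factor -/
theorem exists_monic {f P : k[X]} (hf : f ≠ 0) (hP : P ∣ f) (hu : ¬ IsUnit P) :
    ∃ R : k[X], R.Monic ∧ 1 ≤ R.natDegree ∧ R ∣ P ∧ P ∣ C P.leadingCoeff * R := by
  have hP0 : P ≠ 0 := fun h => hf (by rw [h, zero_dvd_iff] at hP; exact hP)
  have hl : P.leadingCoeff ≠ 0 := leadingCoeff_ne_zero.2 hP0
  refine ⟨P * C P.leadingCoeff⁻¹, monic_mul_leadingCoeff_inv hP0, ?_, ?_, ?_⟩
  · rw [natDegree_mul_leadingCoeff_inv _ hP0]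
    by_contra h
    have h0 : P.natDegree = 0 := by omega
    exact hu (isUnit_iff_degree_eq_zero.2 (by rw [degree_eq_natDegree hP0, h0]; rfl))
  · refine ⟨C P.leadingCoeff, ?_⟩
    rw [mul_assoc, ← C_mul, inv_mul_cancel₀ hl, C_1, mul_one]
  · refine ⟨1, ?_⟩
    rw [mul_one, mul_comm P, ← mul_assoc, ← C_mul, mul_inv_cancel₀ hl, C_1, one_mul]

/-- the exceptional tuples lie in the union of the kernels -/
theorem cover (hd : 0 < d) (β : V k r d) (hβ : ¬ Simple (fun i => (β i : k[X])) d) :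
    (∃ p ∈ pairs r, β ∈ ((lcoeff k d).toAddMonoidHom.comp (df p.1 p.2)).ker) ∨
    (∃ p ∈ pairs r, ∃ e ∈ Finset.Icc 1 (d / 2), ∃ P ∈ Mon k e,
      β ∈ ((modByMonicHom (P ^ 2)).toAddMonoidHom.comp (df p.1 p.2)).ker) ∨
    (∃ q ∈ (pairs r).offDiag, ∃ e ∈ Finset.Icc 1 d, ∃ P ∈ Mon k e,
      β ∈ (two q.1.1 q.1.2 q.2.1 q.2.2 P).ker) := by
  classical
  by_contra hcon
  push Not at hcon
  obtain ⟨hA, hB, hC⟩ := hcon
  have hdeg : ∀ i, (β i : k[X]).natDegree ≤ d := by
    intro i
    have h1 := mem_degreeLT.1 (β i).2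
    rw [natDegree_le_iff_coeff_eq_zero]
    intro N hN
    exact coeff_eq_zero_of_degree_lt (lt_of_lt_of_le h1 (by exact_mod_cast hN))
  have hcoef : ∀ i j : Fin (r + 1), i ≠ j → ((β i : k[X]) - (β j : k[X])).coeff d ≠ 0 := by
    intro i j hij h0
    rcases lt_or_gt_of_ne hij with h | h
    · exact hA (i, j) (mem_pairs.2 h) (AddMonoidHom.mem_ker.2 h0)
    · refine hA (j, i) (mem_pairs.2 h) (AddMonoidHom.mem_ker.2 ?_)
      show ((β j : k[X]) - (β i : k[X])).coeff d = 0
      rw [← neg_sub, coeff_neg, h0, neg_zero]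
  have hD : ∀ i j : Fin (r + 1), i ≠ j → ((β i : k[X]) - (β j : k[X])).natDegree = d := by
    intro i j hij
    exact natDegree_eq_of_le_of_coeff_ne_zero
      ((natDegree_sub_le _ _).trans (max_le (hdeg i) (hdeg j))) (hcoef i j hij)
  have hne0 : ∀ i j : Fin (r + 1), i ≠ j → ((β i : k[X]) - (β j : k[X])) ≠ 0 := by
    intro i j hij h0
    have := hcoef i j hij
    rw [h0, coeff_zero] at this
    exact this rfl
  apply hβ
  refine ⟨hd, hdeg, hD, ?_, ?_⟩
  · intro i j hij x hx
    by_contra hu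
    have hxd : x ∣ ((β i : k[X]) - (β j : k[X])) := (Dvd.intro _ rfl).trans hx
    obtain ⟨R, hR, hR1, hRx, -⟩ := exists_monic (hne0 i j hij) hxd hu
    have hR2 : R ^ 2 ∣ ((β i : k[X]) - (β j : k[X])) := by
      rw [pow_two]; exact (mul_dvd_mul hRx hRx).trans hx
    have hle : 2 * R.natDegree ≤ d := by
      have := natDegree_le_of_dvd hR2 (hne0 i j hij)
      rwa [hD i j hij, hR.natDegree_pow] at this
    have hmem : R.natDegree ∈ Finset.Icc 1 (d / 2) := Finset.mem_Icc.2 ⟨hR1, by omega⟩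
    rcases lt_or_gt_of_ne hij with h | h
    · refine hB (i, j) (mem_pairs.2 h) _ hmem R (mem_Mon.2 ⟨hR, rfl⟩) (AddMonoidHom.mem_ker.2 ?_)
      exact (modByMonic_eq_zero_iff_dvd (hR.pow 2)).2 hR2
    · refine hB (j, i) (mem_pairs.2 h) _ hmem R (mem_Mon.2 ⟨hR, rfl⟩) (AddMonoidHom.mem_ker.2 ?_)
      refine (modByMonic_eq_zero_iff_dvd (hR.pow 2)).2 ?_
      show R ^ 2 ∣ ((β j : k[X]) - (β i : k[X]))
      rw [← neg_sub, dvd_neg]
      exact hR2
  · intro P hP i j hij h1 a b hab h2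
    by_contra hcon2
    obtain ⟨R, hR, hR1, hRP, -⟩ := exists_monic (hne0 i j hij) h1 hP.not_isUnit
    have h1' := hRP.trans h1
    have h2' := hRP.trans h2
    have hle : R.natDegree ≤ d := by
      have := natDegree_le_of_dvd h1' (hne0 i j hij)
      rwa [hD i j hij] at this
    have hmem : R.natDegree ∈ Finset.Icc 1 d := Finset.mem_Icc.2 ⟨hR1, hle⟩
    have hsym : ∀ x y : Fin (r + 1), R ∣ ((β x : k[X]) - (β y : k[X])) →
        R ∣ ((β y : k[X]) - (β x : k[X])) := by
      intro x y h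
      rw [← neg_sub, dvd_neg]; exact h
    have key : ∀ x y z w : Fin (r + 1), x < y → z < w → (x, y) ≠ (z, w) →
        R ∣ ((β x : k[X]) - (β y : k[X])) → R ∣ ((β z : k[X]) - (β w : k[X])) → False := by
      intro x y z w hxy hzw hne h3 h4
      refine hC ((x, y), (z, w)) (Finset.mem_offDiag.2 ⟨mem_pairs.2 hxy, mem_pairs.2 hzw, hne⟩) _
        hmem R (mem_Mon.2 ⟨hR, rfl⟩) (AddMonoidHom.mem_ker.2 ?_)
      rw [two_apply]
      exact Prod.ext ((modByMonic_eq_zero_iff_dvd hR).2 h3) ((modByMonic_eq_zero_iff_dvd hR).2 h4)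
    rcases lt_or_gt_of_ne hij with h | h <;> rcases lt_or_gt_of_ne hab with h' | h'
    · refine key i j a b h h' (fun he => hcon2 (Or.inl ?_)) h1' h2'
      rw [Prod.mk.injEq] at he
      exact ⟨he.1.symm, he.2.symm⟩
    · refine key i j b a h h' (fun he => hcon2 (Or.inr ?_)) h1' (hsym _ _ h2')
      rw [Prod.mk.injEq] at he
      exact ⟨he.2.symm, he.1.symm⟩
    · refine key j i a b h h' (fun he => hcon2 (Or.inr ?_)) (hsym _ _ h1') h2'
      rw [Prod.mk.injEq] at he
      exact ⟨he.1.symm, he.2.symm⟩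
    · refine key j i b a h h' (fun he => hcon2 (Or.inl ?_)) (hsym _ _ h1') (hsym _ _ h2')
      rw [Prod.mk.injEq] at he
      exact ⟨he.2.symm, he.1.symm⟩

/-- geometric sum -/
theorem geo {x : ℝ} (hx0 : 0 ≤ x) (hx : 2 * x ≤ 1) (n : ℕ) :
    ∑ e ∈ Finset.Icc 1 n, x ^ e ≤ 2 * x := by
  have h : ∀ n : ℕ, ∑ e ∈ Finset.Icc 1 n, x ^ e + 2 * x ^ (n + 1) ≤ 2 * x := by
    intro n
    induction n with
    | zero => simp
    | succ n ih =>
      rw [Finset.sum_Icc_succ_top (by omega)]
      have h1 : 0 ≤ x ^ (n + 1) := pow_nonneg hx0 _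
      have h2 : x ^ (n + 1 + 1) = x ^ (n + 1) * x := pow_succ _ _
      nlinarith
  have h1 := h n
  have h2 : 0 ≤ x ^ (n + 1) := pow_nonneg hx0 _
  linarith

theorem ncard_ker {W : Type*} [AddCommGroup W] (φ : V k r d →+ W) :
    (φ.ker : Set (V k r d)).ncard = Nat.card φ.ker := by
  rw [← Nat.card_coe_set_eq]
  rfl

end Sv

open Sv in
theorem sieve : SieveStm := by
  intro k _ _ r d hd
  classical
  set Q : ℕ := Fintype.card k with hQ
  set N : ℕ := (r + 1) * (d + 1) with hN
  have hQ2 : 2 ≤ Q := Fintype.one_lt_card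
  have hQR : (2 : ℝ) ≤ Q := by exact_mod_cast hQ2
  set T : ℝ := (Q : ℝ) ^ N with hT
  have hT0 : 0 < T := by positivity
  set x : ℝ := (Q : ℝ)⁻¹ with hx
  have hx0 : 0 < x := by positivity
  have hQx : (Q : ℝ) * x = 1 := mul_inv_cancel₀ (by positivity)
  have hx1 : 2 * x ≤ 1 := by nlinarith
  set bad : Set (V k r d) := {β | ¬ Simple (fun i => (β i : k[X])) d} with hbad
  have h1 : {β : Fin (r + 1) → k[X] | (∀ i, (β i).natDegree ≤ d) ∧ ¬ Simple β d}.ncard ≤
      bad.ncard := by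
    have hsub : {β : Fin (r + 1) → k[X] | (∀ i, (β i).natDegree ≤ d) ∧ ¬ Simple β d} ⊆
        (fun β : V k r d => fun i => (β i : k[X])) '' bad := by
      rintro β ⟨hβ, hS⟩
      refine ⟨fun i => ⟨β i, ?_⟩, hS, rfl⟩
      rw [mem_degreeLT]
      refine lt_of_le_of_lt (degree_le_of_natDegree_le (hβ i)) ?_
      exact_mod_cast Nat.lt_succ_self d
    exact (Set.ncard_le_ncard hsub (Set.toFinite _)).trans (Set.ncard_image_le (Set.toFinite _))
  let A : Fin (r + 1) × Fin (r + 1) → Set (V k r d) := fun p =>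
    ((((lcoeff k d).toAddMonoidHom.comp (df (k := k) (r := r) (d := d) p.1 p.2)).ker :
      AddSubgroup (V k r d)) : Set (V k r d))
  let B : Fin (r + 1) × Fin (r + 1) → k[X] → Set (V k r d) := fun p P =>
    ((((modByMonicHom (P ^ 2)).toAddMonoidHom.comp (df (k := k) (r := r) (d := d) p.1 p.2)).ker :
      AddSubgroup (V k r d)) : Set (V k r d))
  let D : (Fin (r + 1) × Fin (r + 1)) × (Fin (r + 1) × Fin (r + 1)) → k[X] → Set (V k r d) :=
    fun q P => (((two (k := k) (r := r) (d := d) q.1.1 q.1.2 q.2.1 q.2.2 P).ker :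
      AddSubgroup (V k r d)) : Set (V k r d))
  have hcov : bad ⊆ (⋃ p ∈ pairs r, A p) ∪ ((⋃ p ∈ pairs r, ⋃ e ∈ Finset.Icc 1 (d / 2),
      ⋃ P ∈ Mon k e, B p P) ∪ (⋃ q ∈ (pairs r).offDiag, ⋃ e ∈ Finset.Icc 1 d,
      ⋃ P ∈ Mon k e, D q P)) := by
    intro β hβ
    rcases cover hd β hβ with ⟨p, hp, h⟩ | ⟨p, hp, e, he, P, hP, h⟩ | ⟨q, hq, e, he, P, hP, h⟩
    · left
      exact Set.mem_biUnion hp h
    · right; left
      refine Set.mem_biUnion hp ?_
      refine Set.mem_biUnion he ?_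
      exact Set.mem_biUnion hP h
    · right; right
      refine Set.mem_biUnion hq ?_
      refine Set.mem_biUnion he ?_
      exact Set.mem_biUnion hP h
  set m : ℝ := ((pairs r).card : ℝ) with hm
  have hm0 : 0 ≤ m := Nat.cast_nonneg _
  have hA : ((⋃ p ∈ pairs r, A p).ncard : ℝ) ≤ m * (T * x) := by
    have h2 : ((⋃ p ∈ pairs r, A p).ncard : ℝ) ≤ ∑ p ∈ pairs r, ((A p).ncard : ℝ) := by
      exact_mod_cast Finset.set_ncard_biUnion_le (pairs r) A
    refine h2.trans ?_
    rw [hm, ← nsmul_eq_mul, ← Finset.sum_const]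
    refine Finset.sum_le_sum fun p hp => ?_
    have h3 := cardA (k := k) (r := r) (d := d) (mem_pairs.1 hp).ne
    have h4 : (A p).ncard = Nat.card
      (((lcoeff k d).toAddMonoidHom.comp (df (k := k) (r := r) (d := d) p.1 p.2)).ker) := ncard_ker _
    rw [← h4] at h3
    have h5 : ((A p).ncard : ℝ) * Q ≤ T := by rw [hT]; exact_mod_cast h3
    calc ((A p).ncard : ℝ) = ((A p).ncard : ℝ) * Q * x := by rw [mul_assoc, hQx, mul_one]
      _ ≤ T * x := mul_le_mul_of_nonneg_right h5 hx0.le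
  have hgen : ∀ (F : k[X] → Set (V k r d)) (E : ℕ), (∀ e ∈ Finset.Icc 1 E, ∀ P ∈ Mon k e,
      (F P).ncard * Q ^ (2 * e) ≤ Q ^ N) →
      ((⋃ e ∈ Finset.Icc 1 E, ⋃ P ∈ Mon k e, F P).ncard : ℝ) ≤ T * (2 * x) := by
    intro F E hF
    have h2 : ((⋃ e ∈ Finset.Icc 1 E, ⋃ P ∈ Mon k e, F P).ncard : ℝ) ≤
        ∑ e ∈ Finset.Icc 1 E, ((⋃ P ∈ Mon k e, F P).ncard : ℝ) := by
      exact_mod_cast Finset.set_ncard_biUnion_le (Finset.Icc 1 E) (fun e => ⋃ P ∈ Mon k e, F P)
    refine h2.trans ?_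
    have h3 : ∀ e ∈ Finset.Icc 1 E, ((⋃ P ∈ Mon k e, F P).ncard : ℝ) ≤ T * x ^ e := by
      intro e he
      have h4 : ((⋃ P ∈ Mon k e, F P).ncard : ℝ) ≤ ∑ P ∈ Mon k e, ((F P).ncard : ℝ) := by
        exact_mod_cast Finset.set_ncard_biUnion_le (Mon k e) F
      refine h4.trans ?_
      have h5 : ∀ P ∈ Mon k e, ((F P).ncard : ℝ) ≤ T * x ^ (2 * e) := by
        intro P hP
        have h6 : ((F P).ncard : ℝ) * (Q : ℝ) ^ (2 * e) ≤ T := by
          rw [hT]; exact_mod_cast hF e he P hP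
        calc ((F P).ncard : ℝ) = ((F P).ncard : ℝ) * (Q : ℝ) ^ (2 * e) * x ^ (2 * e) := by
              rw [mul_assoc, ← mul_pow, hQx, one_pow, mul_one]
          _ ≤ T * x ^ (2 * e) := mul_le_mul_of_nonneg_right h6 (by positivity)
      refine (Finset.sum_le_sum h5).trans ?_
      rw [Finset.sum_const, nsmul_eq_mul]
      have h7 : ((Mon k e).card : ℝ) ≤ (Q : ℝ) ^ e := by exact_mod_cast card_Mon (k := k) e
      calc ((Mon k e).card : ℝ) * (T * x ^ (2 * e)) ≤ (Q : ℝ) ^ e * (T * x ^ (2 * e)) :=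
            mul_le_mul_of_nonneg_right h7 (by positivity)
        _ = T * x ^ e * ((Q : ℝ) * x) ^ e := by rw [two_mul, pow_add, mul_pow]; ring
        _ = T * x ^ e := by rw [hQx, one_pow, mul_one]
    refine (Finset.sum_le_sum h3).trans ?_
    rw [← Finset.mul_sum]
    exact mul_le_mul_of_nonneg_left (geo hx0.le hx1 E) hT0.le
  have hB : ((⋃ p ∈ pairs r, ⋃ e ∈ Finset.Icc 1 (d / 2), ⋃ P ∈ Mon k e, B p P).ncard : ℝ) ≤
      m * (T * (2 * x)) := by
    have h2 : ((⋃ p ∈ pairs r, ⋃ e ∈ Finset.Icc 1 (d / 2), ⋃ P ∈ Mon k e, B p P).ncard : ℝ) ≤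
        ∑ p ∈ pairs r, ((⋃ e ∈ Finset.Icc 1 (d / 2), ⋃ P ∈ Mon k e, B p P).ncard : ℝ) := by
      exact_mod_cast Finset.set_ncard_biUnion_le (pairs r)
        (fun p => ⋃ e ∈ Finset.Icc 1 (d / 2), ⋃ P ∈ Mon k e, B p P)
    refine h2.trans ?_
    rw [hm, ← nsmul_eq_mul, ← Finset.sum_const]
    refine Finset.sum_le_sum fun p hp => hgen (B p) (d / 2) fun e he P hP => ?_
    obtain ⟨hPm, hPe⟩ := mem_Mon.1 hP
    rw [Finset.mem_Icc] at he
    have h3 := cardB (k := k) (r := r) (d := d) (mem_pairs.1 hp).ne (hPm.pow 2) (e := 2 * e)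
      (by rw [hPm.natDegree_pow, hPe]) (by omega)
    have h4 : (B p P).ncard = Nat.card (((modByMonicHom (P ^ 2)).toAddMonoidHom.comp
      (df (k := k) (r := r) (d := d) p.1 p.2)).ker) := ncard_ker _
    rw [h4]
    exact h3
  have hD : ((⋃ q ∈ (pairs r).offDiag, ⋃ e ∈ Finset.Icc 1 d, ⋃ P ∈ Mon k e, D q P).ncard : ℝ) ≤
      m * m * (T * (2 * x)) := by
    have h2 : ((⋃ q ∈ (pairs r).offDiag, ⋃ e ∈ Finset.Icc 1 d, ⋃ P ∈ Mon k e, D q P).ncard : ℝ) ≤
        ∑ q ∈ (pairs r).offDiag, ((⋃ e ∈ Finset.Icc 1 d, ⋃ P ∈ Mon k e, D q P).ncard : ℝ) := by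
      exact_mod_cast Finset.set_ncard_biUnion_le (pairs r).offDiag
        (fun q => ⋃ e ∈ Finset.Icc 1 d, ⋃ P ∈ Mon k e, D q P)
    refine h2.trans ?_
    have h3 : ∀ q ∈ (pairs r).offDiag, ((⋃ e ∈ Finset.Icc 1 d, ⋃ P ∈ Mon k e, D q P).ncard : ℝ) ≤
        T * (2 * x) := by
      intro q hq
      rw [Finset.mem_offDiag] at hq
      refine hgen (D q) d fun e he P hP => ?_
      obtain ⟨hPm, hPe⟩ := mem_Mon.1 hP
      rw [Finset.mem_Icc] at he
      have h3 := cardC (k := k) (r := r) (d := d) (mem_pairs.1 hq.1) (mem_pairs.1 hq.2.1)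
        (fun h => hq.2.2 h) hPm hPe (by omega)
      have h4 : (D q P).ncard = Nat.card
        (two (k := k) (r := r) (d := d) q.1.1 q.1.2 q.2.1 q.2.2 P).ker := ncard_ker _
      rw [h4]
      exact h3
    refine (Finset.sum_le_sum h3).trans ?_
    rw [Finset.sum_const, nsmul_eq_mul]
    refine mul_le_mul_of_nonneg_right ?_ (by positivity)
    have h5 : ((pairs r).offDiag.card : ℝ) ≤ m * m := by
      rw [Finset.offDiag_card, hm]
      exact_mod_cast Nat.sub_le _ _
    exact h5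
  have htot : (bad.ncard : ℝ) ≤ m * (T * x) + (m * (T * (2 * x)) + m * m * (T * (2 * x))) := by
    have h2 : bad.ncard ≤ _ := Set.ncard_le_ncard hcov (Set.toFinite _)
    have h3 := h2.trans (Set.ncard_union_le _ _)
    have h4 := h3.trans (Nat.add_le_add_left (Set.ncard_union_le _ _) _)
    have h5 : (bad.ncard : ℝ) ≤ ((⋃ p ∈ pairs r, A p).ncard : ℝ) +
        (((⋃ p ∈ pairs r, ⋃ e ∈ Finset.Icc 1 (d / 2), ⋃ P ∈ Mon k e, B p P).ncard : ℝ) +
        ((⋃ q ∈ (pairs r).offDiag, ⋃ e ∈ Finset.Icc 1 d, ⋃ P ∈ Mon k e, D q P).ncard : ℝ)) := by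
      exact_mod_cast h4
    linarith
  have hfin : (Q : ℝ) * (bad.ncard : ℝ) ≤ ((r : ℝ) + 1) ^ 4 * T := by
    have h2 : (Q : ℝ) * (m * (T * x) + (m * (T * (2 * x)) + m * m * (T * (2 * x)))) =
        T * (3 * m + 2 * m ^ 2) := by
      have : (Q : ℝ) * (m * (T * x) + (m * (T * (2 * x)) + m * m * (T * (2 * x)))) =
        (Q * x) * (T * (3 * m + 2 * m ^ 2)) := by ring
      rw [this, hQx, one_mul]
    have h3 : 2 * m ≤ ((r : ℝ) + 1) * r := by rw [hm]; exact_mod_cast card_pairs r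
    have hr0 : (0 : ℝ) ≤ r := Nat.cast_nonneg r
    have h4 : 3 * m + 2 * m ^ 2 ≤ ((r : ℝ) + 1) ^ 4 := by
      have h5 : m ≤ ((r : ℝ) + 1) * r / 2 := by linarith
      have h6 : m ^ 2 ≤ (((r : ℝ) + 1) * r / 2) ^ 2 := pow_le_pow_left₀ hm0 h5 2
      nlinarith [mul_nonneg hr0 hr0, mul_nonneg (mul_nonneg hr0 hr0) hr0,
        mul_nonneg (mul_nonneg (mul_nonneg hr0 hr0) hr0) hr0]
    calc (Q : ℝ) * (bad.ncard : ℝ) ≤
        (Q : ℝ) * (m * (T * x) + (m * (T * (2 * x)) + m * m * (T * (2 * x)))) :=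
          mul_le_mul_of_nonneg_left htot (by positivity)
      _ = T * (3 * m + 2 * m ^ 2) := h2
      _ ≤ T * ((r : ℝ) + 1) ^ 4 := mul_le_mul_of_nonneg_left h4 hT0.le
      _ = ((r : ℝ) + 1) ^ 4 * T := mul_comm _ _
  have hfin' : Q * bad.ncard ≤ (r + 1) ^ 4 * Q ^ N := by
    rw [hT] at hfin
    exact_mod_cast hfin
  exact (Nat.mul_le_mul_left Q h1).trans hfin'

end Pool.Agent.K4H5.US
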