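import Pool.Agent.K4H5.US.Univ
import Pool.Agent.K4H5.US.Sieve

/-!
The constant twists by the elements whose norms are the roots of unity of order dividing `e`, and the
numbers of the twists with a fixed vector for one of them.
-/

set_option autoImplicit false
set_option linter.unusedSectionVars false

open Polynomial Module

namespace Pool.Agent.K4H5.US

open Pool.Agent.W313.Hyp Pool.Agent.W343.BSD Pool.Agent.Y709 Pool.Agent.Y709.Gen
open Pool.Agent.Y709.Lay Pool.Agent.Y709.Irr Pool.Agent.Y709.IrrS Pool.Agent.K4H5.PT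

section roots

variable {k : Type} [Field k] [Fintype k]

/-- elements with given norms -/
theorem exists_T (K : Type) [Field K] [Algebra k K] {q s e : ℕ} (hq : 2 ≤ q)
    (hk : Fintype.card k = q ^ s) (he : e ∣ q - 1) :
    ∃ T : Finset k, T.card ≤ e ∧ (∀ c ∈ T, c ≠ 0) ∧ ∀ u : K, u ^ e = 1 →
      ∃ c ∈ T, algebraMap k K c ^ ((Fintype.card k - 1) / (q - 1)) = u⁻¹ := by
  classical
  obtain ⟨g, hg⟩ := IsCyclic.exists_generator (α := kˣ)
  have hq1 : 0 < q - 1 := by omega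
  have he0 : 0 < e := Nat.pos_of_dvd_of_pos he hq1
  have hdiv : q - 1 ∣ Fintype.card k - 1 := by
    rw [hk]
    have := Nat.sub_dvd_pow_sub_pow q 1 s
    rwa [one_pow] at this
  obtain ⟨M, hM⟩ := hdiv
  obtain ⟨c, hc⟩ := he
  have hMe : (Fintype.card k - 1) / (q - 1) = M := by
    rw [hM, Nat.mul_div_cancel_left _ hq1]
  have hk1 : 0 < Fintype.card k - 1 := by
    have := Fintype.one_lt_card (α := k)
    omega
  have h1 : orderOf g = Fintype.card k - 1 := by
    rw [orderOf_eq_card_of_forall_mem_zpowers hg, Nat.card_units, Nat.card_eq_fintype_card]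
  have h2 : IsPrimitiveRoot (g : k) (Fintype.card k - 1) := by
    rw [← h1, ← orderOf_units]
    exact IsPrimitiveRoot.orderOf _
  have h3 : IsPrimitiveRoot (algebraMap k K (g : k)) (Fintype.card k - 1) :=
    h2.map_of_injective (algebraMap k K).injective
  have h4 : IsPrimitiveRoot (algebraMap k K (g : k) ^ (c * M)) e :=
    h3.pow hk1 (by rw [hM, hc]; ring)
  refine ⟨(Finset.range e).image fun i => (g : k) ^ (c * i), ?_, ?_, ?_⟩
  · exact Finset.card_image_le.trans (Finset.card_range e).le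
  · intro x hx
    rw [Finset.mem_image] at hx
    obtain ⟨i, _, rfl⟩ := hx
    exact pow_ne_zero _ g.ne_zero
  · intro u hu
    have hnz : NeZero e := ⟨he0.ne'⟩
    have h5 : (u⁻¹) ^ e = 1 := by rw [inv_pow, hu, inv_one]
    obtain ⟨i, hi, hi'⟩ := h4.eq_pow_of_pow_eq_one h5
    refine ⟨(g : k) ^ (c * i), Finset.mem_image.2 ⟨i, Finset.mem_range.2 hi, rfl⟩, ?_⟩
    rw [hMe, ← hi', map_pow, ← pow_mul, ← pow_mul]
    congr 1
    ring

/-- the numbers of the polynomials some constant multiple of which is in a set -/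
theorem ncard_mul_le {N : ℕ} (T : Finset k) (hT : ∀ c ∈ T, c ≠ 0) (F : k[X] → Prop) :
    {D : k[X] | D.natDegree ≤ N ∧ ∃ c ∈ T, F (C c * D)}.ncard ≤
      T.card * {D : k[X] | D.natDegree ≤ N ∧ F D}.ncard := by
  classical
  have hV : {D : k[X] | D.natDegree ≤ N ∧ F D}.Finite :=
    (finite_natDegree_le N).subset fun D hD => hD.1
  have hsub : {D : k[X] | D.natDegree ≤ N ∧ ∃ c ∈ T, F (C c * D)} ⊆
      ⋃ c ∈ T, (fun D => C c⁻¹ * D) '' {D : k[X] | D.natDegree ≤ N ∧ F D} := by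
    rintro D ⟨hD, c, hc, hF⟩
    rw [Set.mem_iUnion₂]
    refine ⟨c, hc, C c * D, ⟨(natDegree_C_mul_le _ _).trans hD, hF⟩, ?_⟩
    show C c⁻¹ * (C c * D) = D
    rw [← mul_assoc, ← C_mul, inv_mul_cancel₀ (hT c hc), C_1, one_mul]
  have hfin : (⋃ c ∈ T, (fun D => C c⁻¹ * D) '' {D : k[X] | D.natDegree ≤ N ∧ F D}).Finite :=
    T.finite_toSet.biUnion fun u _ => hV.image _
  refine (Set.ncard_le_ncard hsub hfin).trans ?_
  refine (Finset.set_ncard_biUnion_le T _).trans ?_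
  refine (Finset.sum_le_card_nsmul T _ _ fun c _ => Set.ncard_image_le hV).trans ?_
  rw [smul_eq_mul]

end roots

section count

variable {k : Type} [Field k] [Fintype k] {r q : ℕ}

/-- a constant multiple of the twist has a fixed vector -/
def HasF {k : Type} [Field k] [Fintype k] (p a q : ℕ) [Fact p.Prime] [CharP k p] {r : ℕ}
    (T : Finset k) (B : k[X]) (β : Fin (r + 1) → k[X]) (m : Fin (r + 1) → ℕ) (D : k[X]) : Prop :=
  ∃ c ∈ T, ∃ w : Fin r → k[X], w ≠ 0 ∧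
    ∀ i, cart q (C c * D * ∑ j, minor B β m i j * w j) = (w i).map (iterateFrobenius k p a)

/-- the number of the twists for a pencil -/
theorem count_pencil {p a s : ℕ} [hp : Fact p.Prime] [CharP k p] (hq : q = p ^ a) (ha : 0 < a)
    (hs : 0 < s) (hk : Fintype.card k = q ^ s) (B : k[X]) (hB : B ≠ 0)
    (b : ℕ) (hb : ∀ P : k[X], Irreducible P → ¬ P ^ (b + 1) ∣ B) {β : Fin (r + 1) → k[X]}
    {m : Fin (r + 1) → ℕ} {d : ℕ} (hr : 0 < r) (hd : 0 < d) (hβ : ∀ i, (β i).natDegree ≤ d)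
    (hβd : ∀ i j, i ≠ j → (β i - β j).natDegree = d) (hm : ∀ i, 0 < m i) (hmp : ∑ l, m l < p)
    (hc : b + r * (d * ∑ l, m l) + 3 * r + 4 ≤ q ∨
      (Squarefree (∏ i, ∏ j ∈ Finset.Ioi i, (β j - β i)) ∧ b + ∑ l, m l + 3 * r + 4 ≤ q ∧
        r * ∑ l, m l ≤ q - 1))
    (hrq : 4 * (r + 1) ^ 2 ≤ q) (f ρ V N : ℕ)
    (hf : f = B.natDegree + d * ∑ l, m l) (hρ : 2 * r + 1 ≤ ρ) (hρq : ρ + 2 ≤ q)
    (hV : 8 * (r + 1) ^ 2 * (f + 1) ≤ V) (hN : N + f = (q - 1) * V + ρ)
    (T : Finset k) (hT : ∀ c ∈ T, c ≠ 0) {e : ℕ} (hTe : T.card ≤ e) :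
    q * {D : k[X] | D.natDegree ≤ N ∧ HasF p a q T B β m D}.ncard ≤
      2 * r * e * Nat.card k ^ (N + 1) := by
  have hinv : ∀ i : ℕ, i < ∑ l, m l → ((i : k) + 1) ≠ 0 := by
    intro i hi h
    have h1 : ((i + 1 : ℕ) : k) = 0 := by rw [Nat.cast_succ, h]
    rw [CharP.cast_eq_zero_iff k p] at h1
    have h2 := Nat.le_of_dvd (Nat.succ_pos i) h1
    omega
  have h1 : q * {D : k[X] | D.natDegree ≤ N ∧ ∃ w : Fin r → k[X], w ≠ 0 ∧
      ∀ i, cart q (D * ∑ j, minor B β m i j * w j) = (w i).map (iterateFrobenius k p a)}.ncard ≤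
      2 * r * Nat.card k ^ (N + 1) := by
    rw [← Nat.card_coe_set_eq]
    rcases hc with hc | ⟨hsq, hc, hrn⟩
    · exact bound_every hq ha hs hk B hB b hb hr hd hβ hβd hm hinv hc hrq f ρ V N hf hρ hρq hV hN
    · refine (simple_boundS hq ha hs hk B hB b hb (simple_of hd hβ hβd hsq) hm hinv hrn (by omega)
        hrq f ρ V N hf hρ hρq hV hN).trans (Nat.mul_le_mul_right _ ?_)
      omega
  have h2 := ncard_mul_le (N := N) T hT (fun D => ∃ w : Fin r → k[X], w ≠ 0 ∧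
      ∀ i, cart q (D * ∑ j, minor B β m i j * w j) = (w i).map (iterateFrobenius k p a))
  calc q * {D : k[X] | D.natDegree ≤ N ∧ HasF p a q T B β m D}.ncard ≤
      q * (e * {D : k[X] | D.natDegree ≤ N ∧ ∃ w : Fin r → k[X], w ≠ 0 ∧
        ∀ i, cart q (D * ∑ j, minor B β m i j * w j) =
          (w i).map (iterateFrobenius k p a)}.ncard) :=
        Nat.mul_le_mul_left q (h2.trans (Nat.mul_le_mul_right _ hTe))
    _ = e * (q * {D : k[X] | D.natDegree ≤ N ∧ ∃ w : Fin r → k[X], w ≠ 0 ∧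
        ∀ i, cart q (D * ∑ j, minor B β m i j * w j) =
          (w i).map (iterateFrobenius k p a)}.ncard) := by ring
    _ ≤ e * (2 * r * Nat.card k ^ (N + 1)) := Nat.mul_le_mul_left e h1
    _ = _ := by ring

/-- **the number of the pairs in the universal family** -/
theorem count_univ' {p a s : ℕ} [hp : Fact p.Prime] [CharP k p] (hq : q = p ^ a) (ha : 0 < a)
    (hs : 0 < s) (hk : Fintype.card k = q ^ s) (B : k[X]) (hB : B ≠ 0)
    (b : ℕ) (hb : ∀ P : k[X], Irreducible P → ¬ P ^ (b + 1) ∣ B)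
    {m : Fin (r + 1) → ℕ} {d : ℕ} (hd : 0 < d) (hm : ∀ i, 0 < m i)
    (hmp : ∑ l, m l < p) (hnb : b + ∑ l, m l + 3 * r + 4 ≤ q) (hrn : r * ∑ l, m l ≤ q - 1)
    (hrq : 4 * (r + 1) ^ 2 ≤ q) (f ρ V N : ℕ)
    (hf : f = B.natDegree + d * ∑ l, m l) (hρ : 2 * r + 1 ≤ ρ) (hρq : ρ + 2 ≤ q)
    (hV : 8 * (r + 1) ^ 2 * (f + 1) ≤ V) (hN : N + f = (q - 1) * V + ρ)
    (T : Finset k) (hT : ∀ c ∈ T, c ≠ 0) {e : ℕ} (hTe : T.card ≤ e) :
    q * {x : k[X] × (Fin (r + 1) → k[X]) | x.1.natDegree ≤ N ∧ (∀ i, (x.2 i).natDegree ≤ d) ∧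
      HasF p a q T B x.2 m x.1}.ncard ≤
      ((r + 1) ^ 4 + 2 * e) * (Nat.card k ^ (N + 1) * Nat.card k ^ ((r + 1) * (d + 1))) := by
  have hinv : ∀ i : ℕ, i < ∑ l, m l → ((i : k) + 1) ≠ 0 := by
    intro i hi h
    have h1 : ((i + 1 : ℕ) : k) = 0 := by rw [Nat.cast_succ, h]
    rw [CharP.cast_eq_zero_iff k p] at h1
    have h2 := Nat.le_of_dvd (Nat.succ_pos i) h1
    omega
  have h1 := ncard_pairs_le {x : k[X] × (Fin (r + 1) → k[X]) | x.1.natDegree ≤ N ∧
    (∀ i, (x.2 i).natDegree ≤ d) ∧ HasF p a q T B x.2 m x.1}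
    {β : Fin (r + 1) → k[X] | ∀ i, (β i).natDegree ≤ d}
    {β : Fin (r + 1) → k[X] | (∀ i, (β i).natDegree ≤ d) ∧ ¬ Simple β d} (sections_finite d)
    (fun β hβ => hβ.1) {D : k[X] | D.natDegree ≤ N} (finite_natDegree_le N)
    (fun x hx => ⟨hx.1, hx.2.1⟩) q (2 * e * Nat.card k ^ (N + 1)) (by
      intro β hβ hβS
      have hsimple : Simple β d := by
        by_contra h
        exact hβS ⟨hβ, h⟩
      have h2 := simple_boundS hq ha hs hk B hB b hb hsimple hm hinv hrn (by omega) hrq f ρ V N hf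
        hρ hρq hV hN
      have h3 := ncard_mul_le (N := N) T hT (fun D => ∃ w : Fin r → k[X], w ≠ 0 ∧
        ∀ i, cart q (D * ∑ j, minor B β m i j * w j) = (w i).map (iterateFrobenius k p a))
      have h4 : {a_1 : k[X] | (a_1, β) ∈ {x : k[X] × (Fin (r + 1) → k[X]) | x.1.natDegree ≤ N ∧
          (∀ i, (x.2 i).natDegree ≤ d) ∧ HasF p a q T B x.2 m x.1}} =
          {D : k[X] | D.natDegree ≤ N ∧ HasF p a q T B β m D} := by
        ext D
        constructor
        · exact fun h => ⟨h.1, h.2.2⟩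
        · exact fun h => ⟨h.1, hβ, h.2⟩
      rw [h4]
      calc q * {D : k[X] | D.natDegree ≤ N ∧ HasF p a q T B β m D}.ncard ≤
          q * (e * {D : k[X] | D.natDegree ≤ N ∧ ∃ w : Fin r → k[X], w ≠ 0 ∧
            ∀ i, cart q (D * ∑ j, minor B β m i j * w j) =
              (w i).map (iterateFrobenius k p a)}.ncard) :=
            Nat.mul_le_mul_left q (h3.trans (Nat.mul_le_mul_right _ hTe))
        _ = e * (q * {D : k[X] | D.natDegree ≤ N ∧ ∃ w : Fin r → k[X], w ≠ 0 ∧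
            ∀ i, cart q (D * ∑ j, minor B β m i j * w j) =
              (w i).map (iterateFrobenius k p a)}.ncard) := by ring
        _ ≤ e * (2 * Nat.card k ^ (N + 1)) := by
            refine Nat.mul_le_mul_left e ?_
            rw [← Nat.card_coe_set_eq]
            exact h2
        _ = _ := by ring)
  rw [ncard_natDegree_le, ncard_sections] at h1
  have h3 := sieve k r d hd
  rw [← Nat.card_eq_fintype_card] at h3
  have hqk : q ≤ Nat.card k := by
    rw [Nat.card_eq_fintype_card, hk]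
    exact Nat.le_self_pow (by omega) q
  set X := {β : Fin (r + 1) → k[X] | (∀ i, (β i).natDegree ≤ d) ∧ ¬ Simple β d}.ncard with hX
  calc _ ≤ Nat.card k ^ ((r + 1) * (d + 1)) * (2 * e * Nat.card k ^ (N + 1)) +
        q * (X * Nat.card k ^ (N + 1)) := h1
    _ ≤ Nat.card k ^ ((r + 1) * (d + 1)) * (2 * e * Nat.card k ^ (N + 1)) +
        ((r + 1) ^ 4 * Nat.card k ^ ((r + 1) * (d + 1))) * Nat.card k ^ (N + 1) := by
      refine Nat.add_le_add_left ?_ _
      rw [← mul_assoc]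
      exact Nat.mul_le_mul_right _ ((Nat.mul_le_mul_right _ hqk).trans h3)
    _ = _ := by ring

end count

end Pool.Agent.K4H5.US
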