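import Pool.Agent.Y515.CntE.Main
import Pool.Agent.Y709.IrrS.Count
import Pool.Agent.Y709.Irr.Dich

/-!
Stable subspaces of a matrix of polynomials of small degree are spanned by constant vectors.
-/

set_option autoImplicit false
set_option linter.unusedSectionVars false

open Polynomial Module

namespace Pool.Agent.K4H5.US

open Pool.Agent.Y709 Pool.Agent.Y515.CntG Pool.Agent.Y709.Irr Pool.Agent.Y709.IrrS

section frob

variable {K : Type} [Field K] {p a q r : ℕ} [hp : Fact p.Prime] [CharP K p]

/-- the powers of the coordinates -/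
def pw (q : ℕ) {r : ℕ} (v : Fin r → K) : Fin r → K := fun b => v b ^ q

theorem pw_add (hq : q = p ^ a) (v w : Fin r → K) : pw q (v + w) = pw q v + pw q w := by
  funext b
  unfold pw
  rw [Pi.add_apply, Pi.add_apply, hq, add_pow_char_pow]

theorem pw_smul (c : K) (v : Fin r → K) : pw q (c • v) = c ^ q • pw q v := by
  funext b
  unfold pw
  rw [Pi.smul_apply, Pi.smul_apply, smul_eq_mul, smul_eq_mul, mul_pow]

/-- the span of the powers has no larger dimension -/
theorem finrank_pw (hq : q = p ^ a) (s : Set (Fin r → K)) :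
    finrank K (Submodule.span K (pw q '' s)) ≤ finrank K (Submodule.span K s) := by
  classical
  have hq0 : q ≠ 0 := by
    rw [hq]
    exact pow_ne_zero _ hp.out.ne_zero
  obtain ⟨b, hbs, hspan, hli⟩ := exists_linearIndependent K s
  have hbfin : b.Finite := hli.setFinite
  have key : ∀ v ∈ Submodule.span K b, pw q v ∈ Submodule.span K (pw q '' b) := by
    intro v hv
    induction hv using Submodule.span_induction with
    | mem x hx => exact Submodule.subset_span ⟨x, hx, rfl⟩
    | zero =>
      have h1 : pw q (0 : Fin r → K) = 0 := by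
        funext c
        exact zero_pow hq0
      rw [h1]
      exact Submodule.zero_mem _
    | add x y _ _ hx hy =>
      rw [pw_add hq]
      exact Submodule.add_mem _ hx hy
    | smul c x _ hx =>
      rw [pw_smul]
      exact Submodule.smul_mem _ _ hx
  have hfin2 : (pw q '' b).Finite := hbfin.image _
  have h1 : finrank K (Submodule.span K (pw q '' s)) ≤ finrank K (Submodule.span K (pw q '' b)) := by
    apply Submodule.finrank_mono
    rw [Submodule.span_le]
    rintro _ ⟨v, hv, rfl⟩
    apply key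
    rw [hspan]
    exact Submodule.subset_span hv
  have h2 : finrank K (Submodule.span K (pw q '' b)) ≤ (pw q '' b).ncard := by
    have := hfin2.fintype
    rw [Set.ncard_eq_toFinset_card']
    exact finrank_span_le_card _
  have h3 : finrank K (Submodule.span K b) = b.ncard := by
    have := hbfin.fintype
    rw [Set.ncard_eq_toFinset_card']
    exact finrank_span_set_eq_card hli
  rw [← hspan, h3]
  exact (h1.trans h2).trans (Set.ncard_image_le hbfin)

end frob

section stable

variable {k : Type} [Field k] [Fintype k] {q r p a : ℕ} [hp : Fact p.Prime] [CharP k p]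

/-- the common zeros of a set of forms -/
def UU {k : Type} [Field k] {r : ℕ} (S : Set (Fin r → k[X])) : Set (Fin r → k[X]) :=
  {x | ∀ L ∈ S, ∑ b, L b * x b = 0}

/-- the common zeros of degree at most `n` -/
def UD {k : Type} [Field k] {r : ℕ} (S : Set (Fin r → k[X])) (n : ℕ) : Set (Fin r → k[X]) :=
  {x | x ∈ UU S ∧ ∀ b, (x b).natDegree ≤ n}

/-- the image is a common zero of the twisted forms -/
def Stab {k : Type} [Field k] (q : ℕ) (σ : k →+* k) {r : ℕ} (Φ : Matrix (Fin r) (Fin r) k[X])
    (S : Set (Fin r → k[X])) : Prop :=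
  ∀ x ∈ UU S, ∀ L ∈ S, ∑ b, expand k q ((L b).map σ) * ∑ j, Φ b j * x j = 0

/-- the components of the image -/
noncomputable def NN {k : Type} [Field k] (q i : ℕ) (τ : k →+* k) {r : ℕ}
    (Φ : Matrix (Fin r) (Fin r) k[X]) (x : Fin r → k[X]) : Fin r → k[X] :=
  fun b => (cp q i (∑ j, Φ b j * x j)).map τ

variable {σ τ : k →+* k}

theorem NN_mem (hq0 : 0 < q) (hτσ : ∀ x, τ (σ x) = x) {Φ : Matrix (Fin r) (Fin r) k[X]}
    {S : Set (Fin r → k[X])} (hS : Stab q σ Φ S) {x : Fin r → k[X]} (hx : x ∈ UU S) {i : ℕ}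
    (hi : i < q) : NN q i τ Φ x ∈ UU S := by
  intro L hL
  have h1 := (rel_iff hq0 (fun b => ∑ j, Φ b j * x j) (fun b => (L b).map σ)).1 (hS x hx L hL) i hi
  have h2 := congrArg (Polynomial.map τ) h1
  rw [Polynomial.map_sum, Polynomial.map_zero] at h2
  rw [← h2]
  refine Finset.sum_congr rfl fun b _ => ?_
  rw [Polynomial.map_mul, Polynomial.map_map]
  have h3 : τ.comp σ = RingHom.id k := RingHom.ext hτσ
  rw [h3, Polynomial.map_id]
  rfl

theorem natDegree_NN (hq0 : 0 < q) {Φ : Matrix (Fin r) (Fin r) k[X]} {f n : ℕ}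
    (hf : ∀ i j, (Φ i j).natDegree ≤ f) {x : Fin r → k[X]} (hx : ∀ b, (x b).natDegree ≤ n) {i : ℕ}
    (hi : i < q) (b : Fin r) : (NN q i τ Φ x b).natDegree ≤ (f + n) / q := by
  unfold NN
  refine (natDegree_map_le).trans ?_
  refine (natDegree_cp hq0 hi _).trans ?_
  refine Nat.div_le_div_right ?_
  refine natDegree_sum_le_of_forall_le _ _ fun j _ => ?_
  exact natDegree_mul_le.trans (Nat.add_le_add (hf b j) (hx j))

theorem image_eq (hq0 : 0 < q) (hστ : ∀ x, σ (τ x) = x)
    (hexp : ∀ g : k[X], expand k q (g.map σ) = g ^ q) {Φ : Matrix (Fin r) (Fin r) k[X]}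
    (x : Fin r → k[X]) (b : Fin r) :
    ∑ j, Φ b j * x j = ∑ i ∈ Finset.range q, X ^ (q - 1 - i) * (NN q i τ Φ x b) ^ q := by
  refine (cp_decomp hq0 _).trans ?_
  refine Finset.sum_congr rfl fun i _ => ?_
  congr 1
  rw [← hexp]
  unfold NN
  rw [Polynomial.map_map]
  have h3 : σ.comp τ = RingHom.id k := RingHom.ext hστ
  rw [h3, Polynomial.map_id]

variable (K : Type) [Field K] [Algebra k[X] K] [IsFractionRing k[X] K]

/-- the span over the fraction field -/
noncomputable def sp {k : Type} [Field k] (K : Type) [Field K] [Algebra k[X] K] {r : ℕ}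
    (Y : Set (Fin r → k[X])) : Submodule K (Fin r → K) := Submodule.span K (io K '' Y)

theorem sp_mono {Y Z : Set (Fin r → k[X])} (h : Y ⊆ Z) : sp K Y ≤ sp K Z :=
  Submodule.span_mono (Set.image_mono h)

/-- the image of a vector is a combination of the powers -/
theorem image_span (hq0 : 0 < q) (hστ : ∀ x, σ (τ x) = x) (hτσ : ∀ x, τ (σ x) = x)
    (hexp : ∀ g : k[X], expand k q (g.map σ) = g ^ q) {Φ : Matrix (Fin r) (Fin r) k[X]}
    {S : Set (Fin r → k[X])} (hS : Stab q σ Φ S) {f n m : ℕ}
    (hf : ∀ i j, (Φ i j).natDegree ≤ f) (hnm : (f + n) / q ≤ m) {x : Fin r → k[X]}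
    (hx : x ∈ UD S n) :
    (Φ.map (algebraMap k[X] K)).mulVec (io K x) ∈ Submodule.span K (pw q '' (io K '' UD S m)) := by
  have h1 : (Φ.map (algebraMap k[X] K)).mulVec (io K x) =
      ∑ i ∈ Finset.range q, (algebraMap k[X] K (X ^ (q - 1 - i))) • pw q (io K (NN q i τ Φ x)) := by
    funext b
    rw [Finset.sum_apply]
    have h2 := congrArg (algebraMap k[X] K) (image_eq hq0 hστ hexp (Φ := Φ) x b)
    rw [map_sum, map_sum] at h2
    rw [Matrix.mulVec, dotProduct]
    refine Eq.trans ?_ (h2.trans ?_)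
    · refine Finset.sum_congr rfl fun j _ => ?_
      rw [Matrix.map_apply, map_mul]
      rfl
    · refine Finset.sum_congr rfl fun i _ => ?_
      rw [map_mul, map_pow (algebraMap k[X] K) (NN q i τ Φ x b)]
      rfl
  rw [h1]
  refine Submodule.sum_mem _ fun i hi => ?_
  rw [Finset.mem_range] at hi
  refine Submodule.smul_mem _ _ (Submodule.subset_span ?_)
  refine ⟨_, ⟨NN q i τ Φ x, ⟨NN_mem hq0 hτσ hS hx.1 hi, fun b => ?_⟩, rfl⟩, rfl⟩
  exact (natDegree_NN hq0 hf hx.2 hi b).trans hnm

/-- the span is the span of vectors of bounded degree -/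
theorem exists_bound (S : Set (Fin r → k[X])) : ∃ n, sp K (UD S n) = sp K (UU S) := by
  classical
  obtain ⟨b, hbs, hspan, hli⟩ := exists_linearIndependent K (io K '' UU S)
  have hbfin : b.Finite := hli.setFinite
  choose g hg hgb using fun v : b => hbs v.2
  have := hbfin.fintype
  refine ⟨Finset.univ.sup fun v : b => Finset.univ.sup fun c : Fin r => (g v c).natDegree, ?_⟩
  refine le_antisymm (sp_mono K fun x hx => hx.1) ?_
  unfold sp
  rw [← hspan, Submodule.span_le]
  intro v hv
  refine Submodule.subset_span ⟨g ⟨v, hv⟩, ⟨hg ⟨v, hv⟩, fun c => ?_⟩, hgb ⟨v, hv⟩⟩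
  refine le_trans ?_ (Finset.le_sup (f := fun v : b => Finset.univ.sup fun c : Fin r =>
    (g v c).natDegree) (Finset.mem_univ ⟨v, hv⟩))
  exact Finset.le_sup (f := fun c : Fin r => (g ⟨v, hv⟩ c).natDegree) (Finset.mem_univ c)

/-- **stable subspaces are spanned by constants** -/
theorem sp_const (hq : q = p ^ a) (hστ : ∀ x, σ (τ x) = x) (hτσ : ∀ x, τ (σ x) = x)
    (hexp : ∀ g : k[X], expand k q (g.map σ) = g ^ q) {Φ : Matrix (Fin r) (Fin r) k[X]}
    (hdet : Φ.det ≠ 0)
    {S : Set (Fin r → k[X])} (hS : Stab q σ Φ S) {f : ℕ}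
    (hf : ∀ i j, (Φ i j).natDegree ≤ f) (hfq : f + 2 ≤ q) : sp K (UD S 0) = sp K (UU S) := by
  have hq0 : 0 < q := by omega
  have hpK : CharP K p := charP_of_injective_algebraMap
    (IsFractionRing.injective k[X] K) p
  have hdetK : (Φ.map (algebraMap k[X] K)).det ≠ 0 := by
    have h1 : (Φ.map (algebraMap k[X] K)).det = algebraMap k[X] K Φ.det :=
      (RingHom.map_det (algebraMap k[X] K) Φ).symm
    rw [h1]
    exact (map_ne_zero_iff _ (IsFractionRing.injective k[X] K)).2 hdet
  have hinj : Function.Injective (Matrix.mulVecLin (Φ.map (algebraMap k[X] K))) := by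
    rw [← LinearMap.ker_eq_bot, LinearMap.ker_eq_bot']
    intro v hv
    exact Matrix.eq_zero_of_mulVec_eq_zero hdetK hv
  have step : ∀ n, sp K (UD S (n + 1)) = sp K (UU S) → sp K (UD S n) = sp K (UU S) := by
    intro n hn
    apply Submodule.eq_of_le_of_finrank_le (sp_mono K fun x hx => hx.1)
    have hdiv : (f + (n + 1)) / q ≤ n := by
      rw [← Nat.lt_succ_iff, Nat.div_lt_iff_lt_mul hq0]
      have h1 : n.succ * q = n * q + q := Nat.succ_mul n q
      have h2 : n ≤ n * q := Nat.le_mul_of_pos_right n hq0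
      omega
    have h1 : (sp K (UU S)).map (Matrix.mulVecLin (Φ.map (algebraMap k[X] K))) ≤
        Submodule.span K (pw q '' (io K '' UD S n)) := by
      rw [← hn]
      unfold sp
      rw [Submodule.map_span, Submodule.span_le]
      rintro _ ⟨_, ⟨x, hx, rfl⟩, rfl⟩
      exact image_span K hq0 hστ hτσ hexp hS hf hdiv hx
    calc finrank K (sp K (UU S))
        = finrank K ((sp K (UU S)).map (Matrix.mulVecLin (Φ.map (algebraMap k[X] K)))) :=
          (Submodule.equivMapOfInjective _ hinj _).finrank_eq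
      _ ≤ finrank K (Submodule.span K (pw q '' (io K '' UD S n))) := Submodule.finrank_mono h1
      _ ≤ finrank K (sp K (UD S n)) := finrank_pw hq _
  obtain ⟨n, hn⟩ := exists_bound K S
  induction n with
  | zero => exact hn
  | succ n ih => exact ih (step n hn)

end stable

end Pool.Agent.K4H5.US
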