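import Pool.Agent.K4H5.US.Every
import Pool.Agent.K4H5.US.SieveSpec

/-!
The universal split family: the number of the pairs of a twist and of sections with a zero at `s = 1`
over some covering of `p`-power degree without anomalous ramified places.
-/

set_option autoImplicit false
set_option linter.unusedSectionVars false

open Polynomial Module

namespace Pool.Agent.K4H5.US

open Pool.Agent.W313.Hyp Pool.Agent.W343.BSD Pool.Agent.Y709 Pool.Agent.Y709.Gen
open Pool.Agent.Y709.Lay Pool.Agent.Y709.Irr Pool.Agent.Y709.IrrS Pool.Agent.K4H5.PT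

section univ

variable {k : Type} [Field k] [Fintype k] {r q : ℕ}

theorem ncard_sections (d : ℕ) :
    {β : Fin (r + 1) → k[X] | ∀ i, (β i).natDegree ≤ d}.ncard =
      Nat.card k ^ ((r + 1) * (d + 1)) := by
  have h1 : {β : Fin (r + 1) → k[X] | ∀ i, (β i).natDegree ≤ d}.ncard =
      Nat.card {β : Fin (r + 1) → k[X] // ∀ i, (β i).natDegree ≤ d} :=
    (Nat.card_coe_set_eq _).symm
  have h2 : Nat.card {D : k[X] // D.natDegree ≤ d} = Nat.card k ^ (d + 1) := by
    rw [← ncard_natDegree_le (k := k) d]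
    exact Nat.card_coe_set_eq _
  rw [h1, Nat.card_congr (Equiv.subtypePiEquivPi (p := fun (_ : Fin (r + 1)) (D : k[X]) =>
    D.natDegree ≤ d)), Nat.card_pi, Finset.prod_const, h2, Finset.card_univ, Fintype.card_fin,
    ← pow_mul, mul_comm]

theorem sections_finite (d : ℕ) :
    {β : Fin (r + 1) → k[X] | ∀ i, (β i).natDegree ≤ d}.Finite := by
  have h1 : {β : Fin (r + 1) → k[X] | ∀ i, (β i).natDegree ≤ d} =
      Set.univ.pi fun _ : Fin (r + 1) => {D : k[X] | D.natDegree ≤ d} := by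
    ext β
    simp
  rw [h1]
  exact Set.Finite.pi fun _ => finite_natDegree_le d

/-- the number of the pairs -/
theorem ncard_pairs_le {A B : Type} (E : Set (A × B)) (S T : Set B) (hS : S.Finite) (hT : T ⊆ S)
    (F : Set A) (hF : F.Finite) (hE : ∀ x ∈ E, x.1 ∈ F ∧ x.2 ∈ S) (q n : ℕ)
    (h : ∀ b ∈ S, b ∉ T → q * {a | (a, b) ∈ E}.ncard ≤ n) :
    q * E.ncard ≤ S.ncard * n + q * (T.ncard * F.ncard) := by
  classical
  have hEfin : E.Finite := (hF.prod hS).subset fun x hx => hE x hx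
  have hTfin := hS.subset hT
  have hsub : E ⊆ (⋃ b ∈ hS.toFinset \ hTfin.toFinset, (fun a => (a, b)) '' {a | (a, b) ∈ E}) ∪
      F ×ˢ T := by
    rintro ⟨a, b⟩ hx
    by_cases hb : b ∈ T
    · right
      exact ⟨(hE _ hx).1, hb⟩
    · left
      simp only [Set.mem_iUnion]
      refine ⟨b, ?_, a, hx, rfl⟩
      rw [Finset.mem_sdiff, Set.Finite.mem_toFinset, Set.Finite.mem_toFinset]
      exact ⟨(hE _ hx).2, hb⟩
  have hfib : ∀ b, {a | (a, b) ∈ E}.Finite := fun b => hF.subset fun a ha => (hE _ ha).1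
  have h1 : (⋃ b ∈ hS.toFinset \ hTfin.toFinset, (fun a => (a, b)) '' {a | (a, b) ∈ E}).ncard ≤
      ∑ b ∈ hS.toFinset \ hTfin.toFinset, {a | (a, b) ∈ E}.ncard := by
    have h2 : ∀ s : Finset B, (⋃ b ∈ s, (fun a => (a, b)) '' {a | (a, b) ∈ E}).ncard ≤
        ∑ b ∈ s, {a | (a, b) ∈ E}.ncard := by
      intro s
      induction s using Finset.induction_on with
      | empty => simp
      | insert b s hb ih =>
        rw [Finset.set_biUnion_insert, Finset.sum_insert hb]
        refine (Set.ncard_union_le _ _).trans (Nat.add_le_add ?_ ih)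
        exact Set.ncard_image_le (hfib b)
    exact h2 _
  have hbig : ((⋃ b ∈ hS.toFinset \ hTfin.toFinset, (fun a => (a, b)) '' {a | (a, b) ∈ E}) ∪
      F ×ˢ T).Finite := by
    refine Set.Finite.union ?_ (hF.prod hTfin)
    exact Set.Finite.biUnion (Finset.finite_toSet _) fun b _ => (hfib b).image _
  have h3 := (Set.ncard_le_ncard hsub hbig).trans ((Set.ncard_union_le _ _).trans
    (Nat.add_le_add h1 (le_of_eq (Set.ncard_prod (s := F) (t := T)))))
  calc q * E.ncard ≤ q * (∑ b ∈ hS.toFinset \ hTfin.toFinset, {a | (a, b) ∈ E}.ncard +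
        F.ncard * T.ncard) := Nat.mul_le_mul_left q h3
    _ = ∑ b ∈ hS.toFinset \ hTfin.toFinset, q * {a | (a, b) ∈ E}.ncard +
        q * (T.ncard * F.ncard) := by
      rw [mul_add, Finset.mul_sum, mul_comm F.ncard]
    _ ≤ S.ncard * n + q * (T.ncard * F.ncard) := by
      refine Nat.add_le_add_right ?_ _
      refine (Finset.sum_le_card_nsmul _ _ n fun b hb => ?_).trans ?_
      · rw [Finset.mem_sdiff, Set.Finite.mem_toFinset, Set.Finite.mem_toFinset] at hb
        exact h b hb.1 hb.2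
      · rw [smul_eq_mul, Set.ncard_eq_toFinset_card S hS]
        exact Nat.mul_le_mul_right _ (Finset.card_le_card Finset.sdiff_subset)

/-- **the number of the pairs with a zero over some covering** -/
theorem count_univ (hsieve : SieveStm) {p f₀ s : ℕ} [hp : Fact p.Prime] [CharP k p]
    (hq : q = p ^ f₀) (hf₀ : 0 < f₀)
    (hs : 0 < s) (hk : Fintype.card k = q ^ s) {m : Fin (r + 1) → ℕ} {d : ℕ} (hd : 0 < d)
    (hm : ∀ i, 0 < m i) (hmp : ∑ l, m l < p) (hrn : r * ∑ l, m l ≤ q - 1)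
    (hn4 : ∑ l, m l + 3 * r + 4 ≤ q) (hrq : 4 * (r + 1) ^ 2 ≤ q)
    (ρ V N : ℕ) (hρ : 2 * r + 1 ≤ ρ) (hρq : ρ + 2 ≤ q)
    (hV : 8 * (r + 1) ^ 2 * (d * ∑ l, m l + 1) ≤ V)
    (hN : N + d * ∑ l, m l = (q - 1) * V + ρ) :
    q * {x : k[X] × (Fin (r + 1) → k[X]) | x.1.natDegree ≤ N ∧ (∀ i, (x.2 i).natDegree ≤ d) ∧
      VanN p q s (x.1 * 1) x.2 m}.ncard ≤
      ((r + 1) ^ 4 + 2) * (Nat.card k ^ (N + 1) * Nat.card k ^ ((r + 1) * (d + 1))) := by
  have h1 := ncard_pairs_le {x : k[X] × (Fin (r + 1) → k[X]) | x.1.natDegree ≤ N ∧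
    (∀ i, (x.2 i).natDegree ≤ d) ∧ VanN p q s (x.1 * 1) x.2 m}
    {β : Fin (r + 1) → k[X] | ∀ i, (β i).natDegree ≤ d}
    {β : Fin (r + 1) → k[X] | (∀ i, (β i).natDegree ≤ d) ∧ ¬ Simple β d} (sections_finite d)
    (fun β hβ => hβ.1) {D : k[X] | D.natDegree ≤ N} (finite_natDegree_le N)
    (fun x hx => ⟨hx.1, hx.2.1⟩) q (2 * Nat.card k ^ (N + 1)) (by
      intro β hβ hβS
      have hsimple : Simple β d := by
        by_contra h
        exact hβS ⟨hβ, h⟩
      have h2 := count_vanN (k := k) hq hf₀ hs hk 1 one_ne_zero 0 (fun P hP hd => by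
          rw [zero_add, pow_one] at hd
          exact hP.not_isUnit (isUnit_of_dvd_one hd)) hsimple hm hmp hrn
        (fun P hP hd => absurd (isUnit_of_dvd_one hd) hP.not_isUnit) hn4 (by omega) hrq
        (d * ∑ l, m l) ρ V N (by rw [natDegree_one, zero_add]) hρ hρq hV hN
      refine le_trans (Nat.mul_le_mul_left q (le_of_eq ?_)) h2
      congr 1
      ext D
      constructor
      · exact fun h => ⟨h.1, h.2.2⟩
      · exact fun h => ⟨h.1, hβ, h.2⟩)
  rw [ncard_natDegree_le, ncard_sections] at h1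
  have h3 := hsieve k r d hd
  rw [← Nat.card_eq_fintype_card] at h3
  have hqk : q ≤ Nat.card k := by
    rw [Nat.card_eq_fintype_card, hk]
    exact Nat.le_self_pow (by omega) q
  set X := {β : Fin (r + 1) → k[X] | (∀ i, (β i).natDegree ≤ d) ∧ ¬ Simple β d}.ncard with hX
  calc _ ≤ Nat.card k ^ ((r + 1) * (d + 1)) * (2 * Nat.card k ^ (N + 1)) +
        q * (X * Nat.card k ^ (N + 1)) := h1
    _ ≤ Nat.card k ^ ((r + 1) * (d + 1)) * (2 * Nat.card k ^ (N + 1)) +
        ((r + 1) ^ 4 * Nat.card k ^ ((r + 1) * (d + 1))) * Nat.card k ^ (N + 1) := by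
      refine Nat.add_le_add_left ?_ _
      rw [← mul_assoc]
      exact Nat.mul_le_mul_right _ ((Nat.mul_le_mul_right _ hqk).trans h3)
    _ = _ := by ring

end univ

end Pool.Agent.K4H5.US
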